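import Mathlib

/-! A general top-degree functional on an exterior algebra with generators indexed by a
product. -/

namespace Pool.Agent.H91

open Matrix

variable (R : Type*) [CommRing R] (a b : ℕ)

/-- The top functional. -/
noncomputable def topGen : ExteriorAlgebra R (Fin a × Fin b → R) →ₗ[R] R :=
  ExteriorAlgebra.liftAlternating
    (Pi.single (M := fun n => (Fin a × Fin b → R) [⋀^Fin n]→ₗ[R] R) (a * b)
      ((Matrix.detRowAlternating (n := Fin a × Fin b) (R := R)).domDomCongr finProdFinEquiv))

theorem topGen_apply (f : Fin a × Fin b → (Fin a × Fin b → R)) :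
    topGen R a b (List.ofFn fun j : Fin a => (List.ofFn fun s : Fin b =>
      ExteriorAlgebra.ι R (f (j, s))).prod).prod = Matrix.det (Matrix.of f) := by
  let m : Fin (a * b) → (Fin a × Fin b → R) := fun i => f (finProdFinEquiv.symm i)
  have h1 : (List.ofFn fun j : Fin a => (List.ofFn fun s : Fin b =>
      ExteriorAlgebra.ι R (f (j, s))).prod).prod = ExteriorAlgebra.ιMulti R (a * b) m := by
    rw [ExteriorAlgebra.ιMulti_apply, List.ofFn_mul, List.prod_flatten, List.map_ofFn]
    congr 2
    funext j
    simp only [Function.comp_apply]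
    congr 2
    funext s
    have h4 : finProdFinEquiv.symm (⟨j * b + s, by
        calc
          ↑j * b + s < (j + 1) * b :=
            (Nat.add_lt_add_left s.prop _).trans_eq (by rw [Nat.add_mul, Nat.one_mul])
          _ ≤ _ := Nat.mul_le_mul_right _ j.prop⟩ : Fin (a * b)) = (j, s) := by
      rw [Equiv.symm_apply_eq]
      apply Fin.ext
      simp only [finProdFinEquiv, Equiv.coe_fn_mk]
      ring
    simp only [m, h4]
  rw [h1]
  unfold topGen
  rw [ExteriorAlgebra.liftAlternating_apply_ιMulti, Pi.single_eq_same,
    AlternatingMap.domDomCongr_apply]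
  have h5 : m ∘ finProdFinEquiv = f := by
    funext p
    simp only [m, Function.comp_apply, Equiv.symm_apply_apply]
  rw [h5]
  rfl

end Pool.Agent.H91
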