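import Pool.Agent.H91.Pow
import Pool.Agent.H91.Top

/-! The exterior algebra as Grassmann data, and the top functional. -/

namespace Pool.Agent.H91

open Matrix

section inst

variable (R : Type*) [CommRing R]

/-- The free module on the twenty-eight generators. -/
abbrev Mod28 := Fin 7 × Fin 4 → R

/-- The exterior algebra on twenty-eight generators. -/
abbrev Ext28 := ExteriorAlgebra R (Mod28 R)

/-- The generators. -/
def gen (s : Fin 4) (a : Fin 7) : Ext28 R :=
  ExteriorAlgebra.ι R (Pi.single (a, s) 1 : Mod28 R)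

theorem gen_anti (s t : Fin 4) (a b : Fin 7) :
    gen R s a * gen R t b = -(gen R t b * gen R s a) :=
  eq_neg_of_add_eq_zero_left (ExteriorAlgebra.ι_add_mul_swap _ _)

theorem iota_iota_central (m m' : Mod28 R) (x : Ext28 R) :
    (ExteriorAlgebra.ι R m * ExteriorAlgebra.ι R m') * x =
      x * (ExteriorAlgebra.ι R m * ExteriorAlgebra.ι R m') := by
  have hsw : ∀ p q : Mod28 R, ExteriorAlgebra.ι R p * ExteriorAlgebra.ι R q =
      -(ExteriorAlgebra.ι R q * ExteriorAlgebra.ι R p) := fun p q =>
    eq_neg_of_add_eq_zero_left (ExteriorAlgebra.ι_add_mul_swap _ _)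
  induction x using ExteriorAlgebra.induction with
  | algebraMap r => exact (Algebra.commutes _ _).symm
  | ι v => rw [mul_assoc, hsw m' v, mul_neg, ← mul_assoc, hsw m v, neg_mul, neg_neg, mul_assoc]
  | mul a b ha hb => rw [← mul_assoc, ha, mul_assoc, hb, mul_assoc]
  | add a b ha hb => rw [mul_add, ha, hb, add_mul]

/-- The Grassmann data of the exterior algebra. -/
noncomputable def extData : GData R (Ext28 R) where
  ξ := gen R
  anti := gen_anti R
  sq := fun s a => ExteriorAlgebra.ι_sq_zero _
  central := fun s t a b x => iota_iota_central R _ _ x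
  D := fun s i => CliffordAlgebra.contractLeft (LinearMap.proj (i, s) : Mod28 R →ₗ[R] R)
  D_mul := by
    intro s i t a x
    unfold gen
    have h := CliffordAlgebra.contractLeft_ι_mul (Q := (0 : QuadraticForm R (Mod28 R)))
      (LinearMap.proj (i, s) : Mod28 R →ₗ[R] R) (Pi.single (a, t) 1) x
    refine h.trans ?_
    congr 1
    by_cases hh : t = s ∧ a = i
    · obtain ⟨rfl, rfl⟩ := hh
      simp
    · rw [if_neg hh]
      have : (LinearMap.proj (i, s) : Mod28 R →ₗ[R] R) (Pi.single (a, t) 1) = 0 := by
        rw [LinearMap.proj_apply, Pi.single_eq_of_ne]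
        intro h
        exact hh ⟨(Prod.ext_iff.1 h).2.symm, (Prod.ext_iff.1 h).1.symm⟩
      rw [this, zero_smul]
  D_one := fun s i => CliffordAlgebra.contractLeft_one
    (Q := (0 : QuadraticForm R (Mod28 R))) _
  nil := by
    intro s a
    have h := ExteriorAlgebra.ιMulti_eq_zero_of_not_inj (R := R) (n := 8)
      (v := fun i => (Pi.single (a i, s) 1 : Mod28 R)) (by
        intro hinj
        have : Function.Injective a := fun i j hij => hinj (by simp [hij])
        have := Fintype.card_le_of_injective a this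
        simp at this)
    rw [ExteriorAlgebra.ιMulti_apply] at h
    exact h

theorem extData_xi (s : Fin 4) (a : Fin 7) : (extData R).ξ s a = gen R s a := rfl

end inst

/-- The sign attached to a `7 x 4` array of indices. -/
def Esgn (v : Fin 7 → Fin 4 → Fin 7) : ℤ :=
  Matrix.det (Matrix.of fun p q : Fin 7 × Fin 4 => if q = (v p.1 p.2, p.2) then (1 : ℤ) else 0)

/-- The invariant of degree seven. -/
def Cval {R : Type*} [CommRing R] (z : Fin 7 → Fin 7 → Fin 7 → Fin 7 → R) : R :=
  ∑ v : Fin 7 → Fin 4 → Fin 7, (Esgn v : R) * ∏ j, z (v j 0) (v j 1) (v j 2) (v j 3)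

section top

variable (R : Type*) [CommRing R]

theorem coe_list_prod (l : List (Subalgebra.center R (Ext28 R))) :
    ((l.prod : Subalgebra.center R (Ext28 R)) : Ext28 R) = (l.map Subtype.val).prod := by
  induction l with
  | nil => rfl
  | cons x l ih => rw [List.prod_cons, List.map_cons, List.prod_cons, ← ih]; rfl

theorem coe_prod_mc (v : Fin 7 → Fin 4 → Fin 7) :
    ((∏ j, (extData R).mc (v j) : Subalgebra.center R (Ext28 R)) : Ext28 R) =
      (List.ofFn fun j : Fin 7 => (List.ofFn fun s : Fin 4 =>
        ExteriorAlgebra.ι R (Pi.single (v j s, s) 1 : Mod28 R)).prod).prod := by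
  rw [← List.prod_ofFn, coe_list_prod, List.map_ofFn]
  congr 2
  funext j
  simp only [Function.comp_apply, GData.coe_mc, List.ofFn_succ, List.ofFn_zero, List.prod_cons,
    List.prod_nil, mul_one]
  rfl

/-- The top functional. -/
noncomputable def topL : Ext28 R →ₗ[R] R := topGen R 7 4

theorem topL_prod (v : Fin 7 → Fin 4 → Fin 7) :
    topL R ((∏ j, (extData R).mc (v j) : Subalgebra.center R (Ext28 R)) : Ext28 R) =
      (Esgn v : R) := by
  rw [coe_prod_mc]
  have h := topGen_apply R 7 4 (fun p => (Pi.single (v p.1 p.2, p.2) 1 : Mod28 R))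
  refine h.trans ?_
  unfold Esgn
  have h2 := RingHom.map_det (Int.castRingHom R)
    (Matrix.of fun p q : Fin 7 × Fin 4 => if q = (v p.1 p.2, p.2) then (1 : ℤ) else 0)
  refine Eq.trans ?_ h2.symm
  congr 1
  ext p q
  simp only [RingHom.mapMatrix_apply, Matrix.map_apply, Matrix.of_apply,
    Pi.single_apply]
  split_ifs <;> simp

/-- Claim A. -/
theorem eleven_mul (z : Fin 7 → Fin 7 → Fin 7 → Fin 7 → R) (hz : Sym4 z)
    (hN : ∀ f g : Fin 7 → Fin 7 × Fin 7, ((Nmat z).submatrix f g).det = 0)
    (i j k l : Fin 7) : (11 : R) * (z i j k l * Cval z) = 0 :=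
  (extData R).lin_key (topL R) z hz hN _ (topL_prod R) i j k l

end top

end Pool.Agent.H91
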