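import Pool.Agent.H91.Perm4
import Pool.Agent.H91.Ext

/-! The value of the top functional on the invariant of the symmetrised monomials. -/

namespace Pool.Agent.H91

open Matrix Equiv

/-- A positivity statement for symmetrisations. -/
theorem sym_pos {V G : Type*} [Fintype V] [Group G] [Fintype G] (act : V → G → V)
    (h1 : ∀ v, act v 1 = v) (h2 : ∀ v g h, act (act v g) h = act v (g * h)) (e : V → ℤ)
    (v0 : V) (hv0 : ∀ g, act v0 g = v0) (he : e v0 = 1) :
    ∑ v, e v * ∑ g, e (act v g) ≠ 0 := by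
  set S : V → ℤ := fun v => ∑ g, e (act v g) with hS
  have hinv : ∀ v g, S (act v g) = S v := by
    intro v g
    simp only [hS, h2]
    exact Fintype.sum_equiv (Equiv.mulLeft g) _ _ (fun h => rfl)
  let E : G → (V ≃ V) := fun g =>
    { toFun := fun v => act v g
      invFun := fun v => act v g⁻¹
      left_inv := fun v => by
        change act (act v g) g⁻¹ = v
        rw [h2, mul_inv_cancel, h1]
      right_inv := fun v => by
        change act (act v g⁻¹) g = v
        rw [h2, inv_mul_cancel, h1] }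
  have h3 : ∀ g, ∑ v, e v * S v = ∑ v, e (act v g) * S v := by
    intro g
    rw [← (E g).sum_comp (fun v => e v * S v)]
    refine Finset.sum_congr rfl fun v _ => ?_
    change e (act v g) * S (act v g) = _
    rw [hinv]
  have h4 : (Fintype.card G : ℤ) * ∑ v, e v * S v = ∑ v, S v * S v := by
    have h5 : (Fintype.card G : ℤ) * ∑ v, e v * S v = ∑ _g : G, ∑ v, e v * S v := by
      rw [Finset.sum_const, Finset.card_univ, nsmul_eq_mul]
    rw [h5, Finset.sum_congr rfl (fun g _ => h3 g), Finset.sum_comm]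
    refine Finset.sum_congr rfl fun v _ => ?_
    rw [← Finset.sum_mul]
  intro h0
  rw [h0, mul_zero] at h4
  have h6 : S v0 * S v0 = 0 := by
    have h7 := (Finset.sum_eq_zero_iff_of_nonneg (fun v _ => mul_self_nonneg (S v))).1 h4.symm
    exact h7 v0 (Finset.mem_univ _)
  have h8 : S v0 = (Fintype.card G : ℤ) := by
    simp only [hS, hv0, he]
    rw [Finset.sum_const, Finset.card_univ, nsmul_eq_mul, mul_one]
  have h9 : (Fintype.card G : ℤ) = 0 := by
    rw [← h8]
    exact mul_self_eq_zero.1 h6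
  exact Fintype.card_ne_zero (by exact_mod_cast h9 : Fintype.card G = 0)

/-- The action of the permutations on the arrays. -/
def actv (v : Fin 7 → Fin 4 → Fin 7) (κ : Fin 7 → Perm (Fin 4)) : Fin 7 → Fin 4 → Fin 7 :=
  fun j => v j ∘ κ j

theorem Esgn_diag : Esgn (fun j _ => j) = 1 := by
  unfold Esgn
  have h : (Matrix.of fun p q : Fin 7 × Fin 4 => if q = (p.1, p.2) then (1 : ℤ) else 0) = 1 := by
    refine Matrix.ext fun p q => ?_
    rw [Matrix.of_apply, Matrix.one_apply]
    by_cases h : p = q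
    · subst h
      simp
    · rw [if_neg h, if_neg]
      rintro rfl
      exact h rfl
  exact (congrArg Matrix.det h).trans Matrix.det_one

/-- The number controlling non-membership, for abstract index types. -/
def NN {V G : Type*} [Fintype V] [Fintype G] (act : V → G → V) (e : V → ℤ) : ℤ :=
  ∑ v, e v * ∑ g, e (act v g)

theorem NN_cast {V G : Type*} [Fintype V] [Fintype G] (act : V → G → V) (e : V → ℤ)
    (R : Type*) [CommRing R] :
    ((NN act e : ℤ) : R) = ∑ v, (e v : R) * ∑ g, (e (act v g) : R) := by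
  unfold NN
  rw [Int.cast_sum]
  refine Finset.sum_congr rfl fun v _ => ?_
  rw [Int.cast_mul, Int.cast_sum]

theorem NN_ne_zero : NN actv Esgn ≠ 0 :=
  sym_pos actv (fun _ => rfl) (fun _ _ _ => rfl) Esgn (fun j _ => j) (fun _ => rfl) Esgn_diag

theorem vec4_eta {α : Type*} (w : Fin 4 → α) : ![w 0, w 1, w 2, w 3] = w := by
  funext s
  fin_cases s <;> rfl

/-- Linear functionals on symmetrised products. -/
theorem lin_sym {R A V P ι : Type*} [CommRing R] [Ring A] [Algebra R A] [Fintype V] [Fintype P]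
    [Fintype ι] [DecidableEq ι]
    (T : A →ₗ[R] R) (c : V → ℤ) (m : V → ι → P → Subalgebra.center R A)
    (e : V → (ι → P) → R)
    (h : ∀ v κ, T ((∏ j, m v j (κ j) : Subalgebra.center R A) : A) = e v κ) :
    T ((∑ v, (c v : Subalgebra.center R A) * ∏ j, ∑ π, m v j π : Subalgebra.center R A) : A) =
      ∑ v, (c v : R) * ∑ κ, e v κ := by
  rw [AddSubmonoidClass.coe_finsetSum, map_sum]
  refine Finset.sum_congr rfl fun v _ => ?_
  rw [Finset.prod_univ_sum, Fintype.piFinset_univ, Finset.mul_sum, AddSubmonoidClass.coe_finsetSum,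
    map_sum, Finset.mul_sum]
  refine Finset.sum_congr rfl fun κ _ => ?_
  have h1 : ((c v : Subalgebra.center R A) * ∏ j, m v j (κ j) : Subalgebra.center R A) =
      c v • ∏ j, m v j (κ j) := (zsmul_eq_mul _ _).symm
  have h2 : ((c v • ∏ j, m v j (κ j) : Subalgebra.center R A) : A) =
      c v • ((∏ j, m v j (κ j) : Subalgebra.center R A) : A) := rfl
  rw [← h v κ, h1, h2, map_zsmul, zsmul_eq_mul]

theorem GData.lin_C_psi {R A : Type*} [CommRing R] [Ring A] [Algebra R A] (G : GData R A)
    (T : A →ₗ[R] R) (e : (Fin 7 → Fin 4 → Fin 7) → ℤ)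
    (h : ∀ v, T ((∏ j, G.mc (v j) : Subalgebra.center R A) : A) = (e v : R)) :
    T ((∑ v : Fin 7 → Fin 4 → Fin 7, (e v : Subalgebra.center R A) *
      ∏ j, G.psi ![v j 0, v j 1, v j 2, v j 3] : Subalgebra.center R A) : A) =
      ((NN actv e : ℤ) : R) := by
  have h1 : ∀ v : Fin 7 → Fin 4 → Fin 7, (∏ j, G.psi ![v j 0, v j 1, v j 2, v j 3]) =
      ∏ j, ∑ π : Perm (Fin 4), G.mc (v j ∘ π) := by
    intro v
    refine Finset.prod_congr rfl fun j _ => ?_
    rw [vec4_eta]
    rfl
  simp only [h1]
  have h2 := lin_sym T e (fun v (j : Fin 7) (π : Perm (Fin 4)) =>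
    G.mc (v j ∘ π)) (fun v κ => (e (actv v κ) : R))
    (fun v κ => h (actv v κ))
  exact h2.trans (NN_cast actv e R).symm

end Pool.Agent.H91
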