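import Pool.Agent.H91.Tuple
import Pool.Agent.H91.NonMem

/-! The ideal of `7 x 7` minors of the middle catalecticant of quartics in seven variables
is not saturated. -/

namespace Pool.Agent.H91.Cat

open MvPolynomial Equiv Pool.Agent.H91

variable (k : Type*) [Field k]

/-- The variable attached to four indices. -/
noncomputable def zX (a b c d : Fin 7) : MvPolynomial (Expo 7 4) k := X (tpn ![a, b, c, d])

/-- The invariant. -/
noncomputable def Cpol : MvPolynomial (Expo 7 4) k := Cval (zX k)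

theorem map_Cval {R S : Type*} [CommRing R] [CommRing S] (f : R →+* S)
    (z : Fin 7 → Fin 7 → Fin 7 → Fin 7 → R) :
    f (Cval z) = Cval (fun a b c d => f (z a b c d)) := by
  unfold Cval
  rw [map_sum]
  refine Finset.sum_congr rfl fun v _ => ?_
  rw [map_mul, map_intCast, map_prod]

theorem sym_zX {R : Type*} (f : MvPolynomial (Expo 7 4) k → R) :
    Sym4 (fun a b c d => f (zX k a b c d)) where
  s12 := by
    intro a b c d
    have h := tpn_comp ![a, b, c, d] (Equiv.swap 0 1)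
    have h2 : ![a, b, c, d] ∘ (Equiv.swap 0 1 : Perm (Fin 4)) = ![b, a, c, d] := by
      funext s
      fin_cases s <;> rfl
    change f (X (tpn ![a, b, c, d])) = f (X (tpn ![b, a, c, d]))
    rw [← h2, h]
  s23 := by
    intro a b c d
    have h := tpn_comp ![a, b, c, d] (Equiv.swap 1 2)
    have h2 : ![a, b, c, d] ∘ (Equiv.swap 1 2 : Perm (Fin 4)) = ![a, c, b, d] := by
      funext s
      fin_cases s <;> rfl
    change f (X (tpn ![a, b, c, d])) = f (X (tpn ![a, c, b, d]))
    rw [← h2, h]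
  s34 := by
    intro a b c d
    have h := tpn_comp ![a, b, c, d] (Equiv.swap 2 3)
    have h2 : ![a, b, c, d] ∘ (Equiv.swap 2 3 : Perm (Fin 4)) = ![a, b, d, c] := by
      funext s
      fin_cases s <;> rfl
    change f (X (tpn ![a, b, c, d])) = f (X (tpn ![a, b, d, c]))
    rw [← h2, h]

theorem det_quot_zero (h24 : 2 ≤ 4) (f g : Fin 7 → Fin 7 × Fin 7) :
    ((Nmat (fun a b c d => Ideal.Quotient.mk (Minors k 7 4 2 h24 6) (zX k a b c d))).submatrix
      f g).det = 0 := by
  have h0 : (Nmat (fun a b c d => Ideal.Quotient.mk (Minors k 7 4 2 h24 6)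
      (zX k a b c d))).submatrix f g =
      ((catMatrix k 7 4 2 h24).submatrix (fun i => pr 2 rfl (f i))
        (fun j => pr (4 - 2) rfl (g j))).map (Ideal.Quotient.mk (Minors k 7 4 2 h24 6)) := by
    refine Matrix.ext fun i j => ?_
    change Ideal.Quotient.mk (Minors k 7 4 2 h24 6) (X (tpn ![_, _, _, _])) =
      Ideal.Quotient.mk (Minors k 7 4 2 h24 6) (X (Expo.add h24 _ _))
    rw [tpn_four h24]
  rw [h0]
  by_cases hf : Function.Injective fun i => pr 2 rfl (f i)
  · by_cases hg : Function.Injective fun j => pr (4 - 2) rfl (g j)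
    · rw [← RingHom.mapMatrix_apply, ← RingHom.map_det, Ideal.Quotient.eq_zero_iff_mem]
      exact Ideal.subset_span ⟨⟨_, hf⟩, ⟨_, hg⟩, rfl⟩
    · unfold Function.Injective at hg
      push Not at hg
      obtain ⟨i, j, hij, hne⟩ := hg
      refine Matrix.det_zero_of_column_eq hne fun l => ?_
      rw [Matrix.map_apply, Matrix.map_apply, Matrix.submatrix_apply, Matrix.submatrix_apply, hij]
  · unfold Function.Injective at hf
    push Not at hf
    obtain ⟨i, j, hij, hne⟩ := hf
    refine Matrix.det_zero_of_row_eq hne ?_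
    funext l
    rw [Matrix.map_apply, Matrix.map_apply, Matrix.submatrix_apply, Matrix.submatrix_apply, hij]

theorem eleven_mem (h24 : 2 ≤ 4) (γ : Expo 7 4) :
    (11 : MvPolynomial (Expo 7 4) k) * (X γ * Cpol k) ∈ Minors k 7 4 2 h24 6 := by
  obtain ⟨w, rfl⟩ := tpn_surjective γ
  have h := eleven_mul (MvPolynomial (Expo 7 4) k ⧸ Minors k 7 4 2 h24 6)
    (fun a b c d => Ideal.Quotient.mk (Minors k 7 4 2 h24 6) (zX k a b c d))
    (sym_zX k (Ideal.Quotient.mk (Minors k 7 4 2 h24 6))) (det_quot_zero k h24)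
    (w 0) (w 1) (w 2) (w 3)
  rw [← Ideal.Quotient.eq_zero_iff_mem, map_mul, map_mul, map_ofNat]
  unfold Cpol
  rw [map_Cval]
  rw [← h]
  unfold zX
  rw [vec4_eta]

theorem X_mul_mem (h24 : 2 ≤ 4) (h11 : (11 : k) ≠ 0) (γ : Expo 7 4) :
    X γ * Cpol k ∈ Minors k 7 4 2 h24 6 := by
  have h := Ideal.mul_mem_left (Minors k 7 4 2 h24 6) (C (11 : k)⁻¹) (eleven_mem k h24 γ)
  have h2 : (C (11 : k)⁻¹ : MvPolynomial (Expo 7 4) k) * (11 * (X γ * Cpol k)) =
      X γ * Cpol k := by
    have h3 : (11 : MvPolynomial (Expo 7 4) k) = C (11 : k) := by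
      rw [map_ofNat]
    rw [← mul_assoc, h3, ← C_mul, inv_mul_cancel₀ h11, C_1, one_mul]
  rwa [h2] at h

/-- A tuple representing an exponent vector. -/
noncomputable def rep (γ : Expo 7 4) : Fin 4 → Fin 7 := Function.surjInv tpn_surjective γ

theorem psi_rep {A : Type*} [Ring A] [Algebra k A] (G : GData k A) (w : Fin 4 → Fin 7) :
    G.psi (rep (tpn w)) = G.psi w := by
  have h : tpn (rep (tpn w)) = tpn w := Function.surjInv_eq tpn_surjective _
  obtain ⟨σ, hσ⟩ := exists_perm_of_tpn_eq h.symm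
  rw [hσ, G.psi_comp]

/-- The evaluation, for abstract index types. -/
theorem abs_eval {R A S V P ι : Type*} [CommRing R] [Ring A] [Algebra R A] [CommRing S]
    [Fintype V] [Fintype P] [Fintype ι] [DecidableEq ι]
    (φ : S →+* Subalgebra.center R A) (T : A →ₗ[R] R) (c : V → ℤ) (x : V → ι → S)
    (m : V → ι → P → Subalgebra.center R A) (hx : ∀ v j, φ (x v j) = ∑ π, m v j π)
    (e : V → (ι → P) → R)
    (h : ∀ v κ, T ((∏ j, m v j (κ j) : Subalgebra.center R A) : A) = e v κ) :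
    T ((φ (∑ v, (c v : S) * ∏ j, x v j) : Subalgebra.center R A) : A) =
      ∑ v, (c v : R) * ∑ κ, e v κ := by
  rw [← lin_sym T c m e h, map_sum]
  congr 2
  refine Finset.sum_congr rfl fun v _ => ?_
  rw [map_mul, map_intCast, map_prod]
  congr 1
  exact Finset.prod_congr rfl fun j _ => hx v j

theorem Cpol_not_mem_aux {A : Type*} [Ring A] [Algebra k A] (G : GData k A) (T : A →ₗ[k] k)
    (h : ∀ v, T ((∏ j, G.mc (v j) : Subalgebra.center k A) : A) = (Esgn v : k))
    (hN : ((NN actv Esgn : ℤ) : k) ≠ 0) (h24 : 2 ≤ 4) : Cpol k ∉ Minors k 7 4 2 h24 6 := by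
  intro hC
  let φ : MvPolynomial (Expo 7 4) k →+* Subalgebra.center k A :=
    (MvPolynomial.aeval (fun γ => G.psi (rep γ))).toRingHom
  have hφ : ∀ w : Fin 4 → Fin 7, φ (X (tpn w)) = G.psi w := by
    intro w
    change MvPolynomial.aeval (fun γ => G.psi (rep γ)) (X (tpn w)) = _
    rw [MvPolynomial.aeval_X]
    exact psi_rep k G w
  have hI : Minors k 7 4 2 h24 6 ≤ RingHom.ker φ := by
    unfold Minors
    rw [Ideal.span_le]
    rintro p ⟨f, g, rfl⟩
    rw [SetLike.mem_coe, RingHom.mem_ker, RingHom.map_det]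
    choose f' hf' using fun i => pr_surjective 2 rfl (f i)
    choose g' hg' using fun j => pr_surjective (4 - 2) rfl (g j)
    have h0 : φ.mapMatrix ((catMatrix k 7 4 2 h24).submatrix f g) =
        Matrix.of fun i j : Fin 7 => G.psi ![(f' i).1, (f' i).2, (g' j).1, (g' j).2] := by
      refine Matrix.ext fun i j => ?_
      rw [RingHom.mapMatrix_apply, Matrix.map_apply, Matrix.submatrix_apply, Matrix.of_apply,
        ← hφ, tpn_four h24, hf' i, hg' j]
      rfl
    rw [h0]
    exact G.det_psi_zero f' g'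
  have h1 : φ (Cpol k) = 0 := hI hC
  have h2 := abs_eval φ T Esgn (fun v j => zX k (v j 0) (v j 1) (v j 2) (v j 3))
    (fun v (j : Fin 7) (π : Perm (Fin 4)) => G.mc (v j ∘ π))
    (fun v j => (hφ ![v j 0, v j 1, v j 2, v j 3]).trans (by rw [vec4_eta]; rfl))
    (fun v κ => (Esgn (actv v κ) : k)) (fun v κ => h (actv v κ))
  have h3 : T ((φ (Cpol k) : Subalgebra.center k A) : A) = ((NN actv Esgn : ℤ) : k) :=
    h2.trans (NN_cast actv Esgn k).symm
  rw [h1] at h3
  apply hN
  rw [← h3]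
  exact map_zero T

theorem Cpol_not_mem (h24 : 2 ≤ 4) (hN : ((NN actv Esgn : ℤ) : k) ≠ 0) :
    Cpol k ∉ Minors k 7 4 2 h24 6 :=
  Cpol_not_mem_aux k (extData k) (topL k) (topL_prod k) hN h24

theorem Cpol_not_mem_charZero [CharZero k] (h24 : 2 ≤ 4) : Cpol k ∉ Minors k 7 4 2 h24 6 :=
  Cpol_not_mem k h24 (by exact_mod_cast NN_ne_zero)

theorem Cpol_homogeneous : (Cpol k).IsHomogeneous 7 := by
  unfold Cpol Cval
  refine MvPolynomial.IsHomogeneous.sum _ _ _ fun v _ => ?_
  have h1 : (∏ j : Fin 7, zX k (v j 0) (v j 1) (v j 2) (v j 3)).IsHomogeneous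
      (∑ _j : Fin 7, 1) :=
    MvPolynomial.IsHomogeneous.prod _ _ _ fun j _ => MvPolynomial.isHomogeneous_X _ _
  have h2 : (∑ _j : Fin 7, 1) = 7 := by simp
  rw [h2] at h1
  have h3 : ((Esgn v : ℤ) : MvPolynomial (Expo 7 4) k) = C ((Esgn v : ℤ) : k) := by
    rw [map_intCast]
  rw [h3]
  have h4 := (MvPolynomial.isHomogeneous_C (Expo 7 4) ((Esgn v : ℤ) : k)).mul h1
  rwa [zero_add] at h4

theorem not_saturated_of {n d : ℕ} (I : Ideal (MvPolynomial (Expo n d) k))
    (f : MvPolynomial (Expo n d) k) (h1 : f ∉ I) (h2 : ∀ γ, X γ * f ∈ I) : ¬ IsSaturated I := by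
  intro hs
  apply h1
  refine hs f ⟨1, fun g hg => ?_⟩
  rw [pow_one] at hg
  unfold irrelevant at hg
  refine Submodule.span_induction (p := fun g _ => g * f ∈ I) ?_ ?_ ?_ ?_ hg
  · rintro _ ⟨γ, rfl⟩
    exact h2 γ
  · rw [zero_mul]
    exact I.zero_mem
  · intro x y _ _ hx hy
    rw [add_mul]
    exact I.add_mem hx hy
  · intro a x _ hx
    rw [smul_eq_mul, mul_assoc]
    exact I.mul_mem_left a hx

end Pool.Agent.H91.Cat
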