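import Mathlib

/-! Vanishing of Gram determinants of a matrix all of whose minors vanish. -/

namespace Pool.Agent.H91

open Matrix

theorem det_mul_expand {m : ℕ} {K : Type*} [CommRing K] {κ : Type*} [Fintype κ] [DecidableEq κ]
    (P : Matrix (Fin m) κ K) (X : Matrix κ (Fin m) K) :
    (P * X).det = ∑ f : Fin m → κ, (∏ i, P i (f i)) * (X.submatrix f id).det := by
  have h1 : (P * X) = fun i => ∑ k, P i k • X k := by
    ext i j
    simp [Matrix.mul_apply, Finset.sum_apply]
  rw [h1]
  change (Matrix.detRowAlternating : (Fin m → K) [⋀^Fin m]→ₗ[K] K) (fun i => ∑ k, P i k • X k) = _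
  rw [← AlternatingMap.coe_multilinearMap, MultilinearMap.map_sum]
  refine Finset.sum_congr rfl fun f _ => ?_
  rw [MultilinearMap.map_smul_univ]
  rfl

/-- If all `m x m` minors of `N` vanish, so do all `m x m` determinants of `P N Q`. -/
theorem det_gram_zero {m : ℕ} {R K : Type*} [CommRing R] [CommRing K] [Algebra R K]
    {ι κ : Type*} [Fintype ι] [Fintype κ] [DecidableEq ι] [DecidableEq κ]
    (N : Matrix ι κ R)
    (hN : ∀ (f : Fin m → ι) (g : Fin m → κ), (N.submatrix f g).det = 0)
    (P : Matrix (Fin m) ι K) (Q : Matrix κ (Fin m) K) :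
    (P * (N.map (algebraMap R K) * Q)).det = 0 := by
  rw [det_mul_expand]
  refine Finset.sum_eq_zero fun f _ => ?_
  have h1 : ((N.map (algebraMap R K) * Q).submatrix f id) =
      (N.map (algebraMap R K)).submatrix f id * Q := by
    ext i j
    simp [Matrix.mul_apply]
  rw [h1, ← Matrix.det_transpose, Matrix.transpose_mul, det_mul_expand]
  rw [Finset.sum_eq_zero, mul_zero]
  intro g _
  have h2 : (((N.map (algebraMap R K)).submatrix f id)ᵀ.submatrix g id) =
      ((N.submatrix f g).map (algebraMap R K))ᵀ := by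
    ext i j
    simp
  rw [h2, Matrix.det_transpose]
  have h3 : ((N.submatrix f g).map (algebraMap R K)) =
      (algebraMap R K).mapMatrix (N.submatrix f g) := rfl
  rw [h3, ← RingHom.map_det, hN, map_zero, mul_zero]

end Pool.Agent.H91
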