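import Mathlib

/-! Determinant of an arrow-shaped matrix of size seven. -/

namespace Pool.Agent.H91

open Matrix Polynomial

/-- The arrow matrix. -/
def arrow {K : Type*} [CommRing K] (b : K) (r c e : Fin 6 → K) (u : K) :
    Matrix (Fin 7) (Fin 7) K :=
  fun i j => Fin.cases (Fin.cases b (fun j' => r j') j)
    (fun i' => Fin.cases (c i') (fun j' => if i' = j' then e i' * u else 0) j) i

theorem arrow_zero_zero {K : Type*} [CommRing K] (b : K) (r c e : Fin 6 → K) (u : K) :
    arrow b r c e u 0 0 = b := rfl

theorem arrow_zero_succ {K : Type*} [CommRing K] (b : K) (r c e : Fin 6 → K) (u : K)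
    (j : Fin 6) : arrow b r c e u 0 j.succ = r j := rfl

theorem arrow_succ_zero {K : Type*} [CommRing K] (b : K) (r c e : Fin 6 → K) (u : K)
    (i : Fin 6) : arrow b r c e u i.succ 0 = c i := rfl

theorem arrow_succ_succ {K : Type*} [CommRing K] (b : K) (r c e : Fin 6 → K) (u : K)
    (i j : Fin 6) : arrow b r c e u i.succ j.succ = if i = j then e i * u else 0 := rfl

theorem u_mul_det_arrow {K : Type*} [CommRing K] (b : K) (r c e : Fin 6 → K) (u : K)
    (he : ∀ i, e i * e i = 1) :
    u * (arrow b r c e u).det =
      u * ((∏ i, e i) * (u ^ 6 * b - u ^ 5 * ∑ i, e i * r i * c i)) := by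
  classical
  -- multiply by a lower triangular matrix
  let P : Matrix (Fin 7) (Fin 7) K := fun i j =>
    Fin.cases (Fin.cases u (fun _ => 0) j)
      (fun i' => Fin.cases (- (e i' * c i')) (fun j' => if i' = j' then 1 else 0) j) i
  have hP : P.det = u := by
    have hlow : P.IsLowerTriangular := by
      intro i j hij
      revert hij
      refine Fin.cases ?_ (fun i' => ?_) i
      · refine Fin.cases ?_ (fun j' => ?_) j
        · intro h; exact absurd h (lt_irrefl _)
        · intro _; rfl
      · refine Fin.cases ?_ (fun j' => ?_) j
        · intro h; exact absurd (OrderDual.toDual_lt_toDual.mp h) (by simp)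
        · intro h
          have : i' ≠ j' := by
            rintro rfl; exact absurd h (lt_irrefl _)
          simp [P, this]
    rw [Matrix.det_of_isLowerTriangular P hlow, Fin.prod_univ_succ]
    simp [P]
  have hGP : (arrow b r c e u * P).det =
      (u * b - ∑ i, e i * r i * c i) * ∏ i, (e i * u) := by
    rw [Matrix.det_of_isUpperTriangular]
    · rw [Fin.prod_univ_succ]
      congr 1
      · rw [Matrix.mul_apply, Fin.sum_univ_succ]
        simp only [arrow_zero_zero, arrow_zero_succ, P, Fin.cases_zero, Fin.cases_succ]
        rw [sub_eq_add_neg, ← Finset.sum_neg_distrib]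
        congr 1
        · ring
        · exact Finset.sum_congr rfl fun i _ => by ring
      · refine Finset.prod_congr rfl fun i _ => ?_
        rw [Matrix.mul_apply, Fin.sum_univ_succ]
        simp [arrow_succ_zero, arrow_succ_succ, P]
    · intro i j hij
      rw [Matrix.mul_apply, Fin.sum_univ_succ]
      revert hij
      refine Fin.cases ?_ (fun i' => ?_) i
      · intro h; exact absurd h (by simp)
      · refine Fin.cases ?_ (fun j' => ?_) j
        · intro _
          simp only [arrow_succ_zero, arrow_succ_succ, P, Fin.cases_zero, Fin.cases_succ]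
          rw [Finset.sum_eq_single i']
          · rw [if_pos rfl]
            linear_combination (- c i' * u) * he i'
          · intro k _ hk
            rw [if_neg (Ne.symm hk), zero_mul]
          · intro h; exact absurd (Finset.mem_univ _) h
        · intro h
          have hne : j' ≠ i' := by
            rintro rfl; exact absurd h (lt_irrefl _)
          simp only [arrow_succ_zero, arrow_succ_succ, P, Fin.cases_zero, Fin.cases_succ,
            mul_zero, zero_add]
          refine Finset.sum_eq_zero fun k _ => ?_
          by_cases h1 : i' = k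
          · subst h1
            rw [if_neg (Ne.symm hne), mul_zero]
          · rw [if_neg h1, zero_mul]
  have key : (arrow b r c e u).det * P.det = (arrow b r c e u * P).det :=
    (Matrix.det_mul _ _).symm
  rw [hP, hGP, Finset.prod_mul_distrib, Finset.prod_const, Finset.card_univ,
    Fintype.card_fin] at key
  rw [mul_comm, key]
  ring

theorem map_arrow {K L : Type*} [CommRing K] [CommRing L] (f : K →+* L) (b : K)
    (r c e : Fin 6 → K) (u : K) :
    f.mapMatrix (arrow b r c e u) =
      arrow (f b) (fun i => f (r i)) (fun i => f (c i)) (fun i => f (e i)) (f u) := by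
  ext i j
  refine Fin.cases ?_ (fun i' => ?_) i
  · refine Fin.cases ?_ (fun j' => ?_) j
    · simp [arrow_zero_zero]
    · simp [arrow_zero_succ]
  · refine Fin.cases ?_ (fun j' => ?_) j
    · simp [arrow_succ_zero]
    · simp only [RingHom.mapMatrix_apply, Matrix.map_apply, arrow_succ_succ]
      split_ifs <;> simp

theorem det_arrow_of_regular {K : Type*} [CommRing K] (b : K) (r c e : Fin 6 → K) (u : K)
    (he : ∀ i, e i * e i = 1) (hu : IsLeftRegular u) :
    (arrow b r c e u).det =
      (∏ i, e i) * (u ^ 6 * b - u ^ 5 * ∑ i, e i * r i * c i) :=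
  hu (u_mul_det_arrow b r c e u he)

theorem det_arrow {K : Type*} [CommRing K] (b : K) (r c e : Fin 6 → K) (u : K)
    (he : ∀ i, e i * e i = 1) :
    (arrow b r c e u).det =
      (∏ i, e i) * (u ^ 6 * b - u ^ 5 * ∑ i, e i * r i * c i) := by
  have hreg : IsLeftRegular (X + C u : K[X]) := (monic_X_add_C u).isRegular.left
  have he' : ∀ i, (fun i => C (e i) : Fin 6 → K[X]) i * (fun i => C (e i) : Fin 6 → K[X]) i = 1 :=
    fun i => by
      change C (e i) * C (e i) = 1
      rw [← C_mul, he, C_1]
  have h2 := det_arrow_of_regular (K := K[X]) (C b) (fun i => C (r i)) (fun i => C (c i))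
    (fun i => C (e i)) (X + C u) he' hreg
  have h3 := congrArg (evalRingHom (0 : K)) h2
  rw [RingHom.map_det, map_arrow] at h3
  simpa [eval_finsetSum, eval_prod] using h3

end Pool.Agent.H91
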