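import Mathlib

/-! Catalecticant matrices, their ideals of minors, saturation. -/

namespace Pool.Agent.H91.Cat

open MvPolynomial

/-- Exponent vectors of total degree `d` in `n` variables. -/
def Expo (n d : ℕ) : Type := {γ : Fin n → ℕ // ∑ a, γ a = d}

/-- The sum of an exponent vector of degree `i` and one of degree `d - i`. -/
def Expo.add {n d i : ℕ} (h : i ≤ d) (α : Expo n i) (β : Expo n (d - i)) : Expo n d :=
  ⟨fun a => α.1 a + β.1 a, by rw [Finset.sum_add_distrib, α.2, β.2]; omega⟩

/-- The catalecticant matrix with `(α, β)` entry the variable attached to `α + β`. -/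
noncomputable def catMatrix (k : Type*) [Field k] (n d i : ℕ) (h : i ≤ d) :
    Matrix (Expo n i) (Expo n (d - i)) (MvPolynomial (Expo n d) k) :=
  fun α β => X (Expo.add h α β)

/-- The ideal generated by the `(r+1) x (r+1)` minors of the catalecticant matrix. -/
noncomputable def Minors (k : Type*) [Field k] (n d i : ℕ) (h : i ≤ d) (r : ℕ) :
    Ideal (MvPolynomial (Expo n d) k) :=
  Ideal.span {p | ∃ (f : Fin (r + 1) ↪ Expo n i) (g : Fin (r + 1) ↪ Expo n (d - i)),
    p = ((catMatrix k n d i h).submatrix f g).det}

/-- The irrelevant ideal, generated by all the variables. -/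
noncomputable def irrelevant (k : Type*) [Field k] (n d : ℕ) :
    Ideal (MvPolynomial (Expo n d) k) :=
  Ideal.span (Set.range X)

/-- An ideal is saturated if it contains every `f` multiplied into it by some power of the
irrelevant ideal. -/
def IsSaturated {k : Type*} [Field k] {n d : ℕ} (I : Ideal (MvPolynomial (Expo n d) k)) : Prop :=
  ∀ f, (∃ m : ℕ, ∀ g ∈ irrelevant k n d ^ m, g * f ∈ I) → f ∈ I

end Pool.Agent.H91.Cat
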