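import Pool.Agent.H91.Grass

/-! Contraction formulas. -/

namespace Pool.Agent.H91.GData

variable {R A : Type*} [CommRing R] [Ring A] [Algebra R A] (G : GData R A)
  {z : Fin 7 → Fin 7 → Fin 7 → Fin 7 → R}

theorem D_W1 (s : Fin 4) (i j k l : Fin 7) (t : Fin 4) :
    G.D s i (G.W1 z j k l t) = if t = s then z j k l i • 1 else 0 := by
  unfold W1
  simp only [map_sum, map_smul, D_xi]
  by_cases h : t = s
  · simp [h]
  · simp [h]

theorem D_W2_mul (hz : Sym4 z) (s : Fin 4) (i j k : Fin 7) (t r : Fin 4) (x : A) :
    G.D s i (G.W2 z j k t r * x) = (if t = s then G.W1 z j k i r * x else 0)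
      - (if r = s then G.W1 z j k i t * x else 0) + G.W2 z j k t r * G.D s i x := by
  have h1 : ∀ c d, G.D s i (G.ξ t c * (G.ξ r d * x)) =
      (if c = i then (if t = s then G.ξ r d * x else 0) else 0)
      - (if d = i then (if r = s then G.ξ t c * x else 0) else 0)
      + G.ξ t c * (G.ξ r d * G.D s i x) := by
    intro c d
    rw [G.D_mul, G.D_mul]
    have e1 : ∀ (P Q : Prop) [Decidable P] [Decidable Q] (y : A),
        (if P ∧ Q then y else 0) = if Q then (if P then y else 0) else 0 := by
      intro P Q _ _ y
      by_cases hP : P <;> by_cases hQ : Q <;> simp [hP, hQ]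
    simp only [e1, mul_sub, mul_ite, mul_zero]
    abel
  have h2 : G.D s i (G.W2 z j k t r * x) =
      ∑ c, ∑ d, z j k c d • G.D s i (G.ξ t c * (G.ξ r d * x)) := by
    unfold W2
    simp only [Finset.sum_mul, smul_mul_assoc, mul_assoc, map_sum, map_smul]
  rw [h2]
  simp only [h1, smul_add, smul_sub, Finset.sum_add_distrib, Finset.sum_sub_distrib]
  congr 1
  · congr 1
    · simp only [smul_ite, smul_zero]
      rw [Finset.sum_comm]
      simp only [Finset.sum_ite_eq', Finset.mem_univ, if_true]
      by_cases h : t = s
      · simp only [h, if_true, W1, Finset.sum_mul, smul_mul_assoc]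
      · simp [h]
    · simp only [smul_ite, smul_zero, Finset.sum_ite_eq', Finset.mem_univ, if_true]
      by_cases h : r = s
      · simp only [h, if_true, W1, Finset.sum_mul, smul_mul_assoc]
        exact Finset.sum_congr rfl fun c _ => by rw [hz.s34]
      · simp [h]
  · unfold W2
    simp only [Finset.sum_mul, smul_mul_assoc, mul_assoc]

theorem D_W3_mul (hz : Sym4 z) (s : Fin 4) (i j : Fin 7) (t r q : Fin 4) (x : A) :
    G.D s i (G.W3 z j t r q * x) = (if t = s then G.W2 z j i r q * x else 0)
      - (if r = s then G.W2 z j i t q * x else 0)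
      + (if q = s then G.W2 z j i t r * x else 0) - G.W3 z j t r q * G.D s i x := by
  have h1 : ∀ b c d, G.D s i (G.ξ t b * (G.ξ r c * (G.ξ q d * x))) =
      (if b = i then (if t = s then G.ξ r c * (G.ξ q d * x) else 0) else 0)
      - (if c = i then (if r = s then G.ξ t b * (G.ξ q d * x) else 0) else 0)
      + (if d = i then (if q = s then G.ξ t b * (G.ξ r c * x) else 0) else 0)
      - G.ξ t b * (G.ξ r c * (G.ξ q d * G.D s i x)) := by
    intro b c d
    rw [G.D_mul, G.D_mul, G.D_mul]
    have e1 : ∀ (P Q : Prop) [Decidable P] [Decidable Q] (y : A),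
        (if P ∧ Q then y else 0) = if Q then (if P then y else 0) else 0 := by
      intro P Q _ _ y
      by_cases hP : P <;> by_cases hQ : Q <;> simp [hP, hQ]
    simp only [e1, mul_sub, mul_ite, mul_zero]
    abel
  have h2 : G.D s i (G.W3 z j t r q * x) =
      ∑ b, ∑ c, ∑ d, z j b c d • G.D s i (G.ξ t b * (G.ξ r c * (G.ξ q d * x))) := by
    unfold W3
    simp only [Finset.sum_mul, smul_mul_assoc, mul_assoc, map_sum, map_smul]
  rw [h2]
  simp only [h1, smul_add, smul_sub, Finset.sum_add_distrib, Finset.sum_sub_distrib]
  congr 1
  · congr 1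
    · congr 1
      · simp only [smul_ite, smul_zero]
        have : ∀ b, (∑ c, ∑ d, if b = i then (if t = s then z j b c d •
            (G.ξ r c * (G.ξ q d * x)) else 0) else 0) =
            if b = i then (∑ c, ∑ d, (if t = s then z j b c d •
            (G.ξ r c * (G.ξ q d * x)) else 0)) else 0 := by
          intro b
          by_cases hb : b = i <;> simp [hb]
        simp only [this, Finset.sum_ite_eq', Finset.mem_univ, if_true]
        by_cases h : t = s
        · simp only [h, if_true, W2, Finset.sum_mul, smul_mul_assoc, mul_assoc]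
        · simp [h]
      · simp only [smul_ite, smul_zero]
        have : ∀ b, (∑ c, ∑ d, if c = i then (if r = s then z j b c d •
            (G.ξ t b * (G.ξ q d * x)) else 0) else 0) =
            ∑ d, (if r = s then z j b i d • (G.ξ t b * (G.ξ q d * x)) else 0) := by
          intro b
          rw [Finset.sum_comm]
          simp only [Finset.sum_ite_eq', Finset.mem_univ, if_true]
        simp only [this]
        by_cases h : r = s
        · simp only [h, if_true, W2, Finset.sum_mul, smul_mul_assoc, mul_assoc]
          exact Finset.sum_congr rfl fun b _ => Finset.sum_congr rfl fun d _ => by rw [hz.s23]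
        · simp [h]
    · simp only [smul_ite, smul_zero, Finset.sum_ite_eq', Finset.mem_univ, if_true]
      by_cases h : q = s
      · simp only [h, if_true, W2, Finset.sum_mul, smul_mul_assoc, mul_assoc]
        exact Finset.sum_congr rfl fun b _ => Finset.sum_congr rfl fun d _ => by
          rw [hz.s34, hz.s23]
      · simp [h]
  · unfold W3
    simp only [Finset.sum_mul, smul_mul_assoc, mul_assoc]

theorem D_W4_mul (hz : Sym4 z) (s : Fin 4) (i : Fin 7) (p t r q : Fin 4) (x : A) :
    G.D s i (G.W4 z p t r q * x) = (if p = s then G.W3 z i t r q * x else 0)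
      - (if t = s then G.W3 z i p r q * x else 0)
      + (if r = s then G.W3 z i p t q * x else 0)
      - (if q = s then G.W3 z i p t r * x else 0) + G.W4 z p t r q * G.D s i x := by
  have h1 : ∀ a b c d, G.D s i (G.ξ p a * (G.ξ t b * (G.ξ r c * (G.ξ q d * x)))) =
      (if a = i then (if p = s then G.ξ t b * (G.ξ r c * (G.ξ q d * x)) else 0) else 0)
      - (if b = i then (if t = s then G.ξ p a * (G.ξ r c * (G.ξ q d * x)) else 0) else 0)
      + (if c = i then (if r = s then G.ξ p a * (G.ξ t b * (G.ξ q d * x)) else 0) else 0)
      - (if d = i then (if q = s then G.ξ p a * (G.ξ t b * (G.ξ r c * x)) else 0) else 0)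
      + G.ξ p a * (G.ξ t b * (G.ξ r c * (G.ξ q d * G.D s i x))) := by
    intro a b c d
    rw [G.D_mul, G.D_mul, G.D_mul, G.D_mul]
    have e1 : ∀ (P Q : Prop) [Decidable P] [Decidable Q] (y : A),
        (if P ∧ Q then y else 0) = if Q then (if P then y else 0) else 0 := by
      intro P Q _ _ y
      by_cases hP : P <;> by_cases hQ : Q <;> simp [hP, hQ]
    simp only [e1, mul_sub, mul_ite, mul_zero]
    abel
  have h2 : G.D s i (G.W4 z p t r q * x) =
      ∑ a, ∑ b, ∑ c, ∑ d, z a b c d •
        G.D s i (G.ξ p a * (G.ξ t b * (G.ξ r c * (G.ξ q d * x)))) := by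
    unfold W4
    simp only [Finset.sum_mul, smul_mul_assoc, mul_assoc, map_sum, map_smul]
  rw [h2]
  simp only [h1, smul_add, smul_sub, Finset.sum_add_distrib, Finset.sum_sub_distrib]
  congr 1
  · congr 1
    · congr 1
      · congr 1
        · simp only [smul_ite, smul_zero]
          have : ∀ a, (∑ b, ∑ c, ∑ d, if a = i then (if p = s then z a b c d •
              (G.ξ t b * (G.ξ r c * (G.ξ q d * x))) else 0) else 0) =
              if a = i then (∑ b, ∑ c, ∑ d, (if p = s then z a b c d •
              (G.ξ t b * (G.ξ r c * (G.ξ q d * x))) else 0)) else 0 := by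
            intro a
            by_cases ha : a = i <;> simp [ha]
          simp only [this, Finset.sum_ite_eq', Finset.mem_univ, if_true]
          by_cases h : p = s
          · simp only [h, if_true, W3, Finset.sum_mul, smul_mul_assoc, mul_assoc]
          · simp [h]
        · simp only [smul_ite, smul_zero]
          have : ∀ a, (∑ b, ∑ c, ∑ d, if b = i then (if t = s then z a b c d •
              (G.ξ p a * (G.ξ r c * (G.ξ q d * x))) else 0) else 0) =
              ∑ c, ∑ d, (if t = s then z a i c d •
              (G.ξ p a * (G.ξ r c * (G.ξ q d * x))) else 0) := by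
            intro a
            have : ∀ b, (∑ c, ∑ d, if b = i then (if t = s then z a b c d •
              (G.ξ p a * (G.ξ r c * (G.ξ q d * x))) else 0) else 0) =
              if b = i then (∑ c, ∑ d, (if t = s then z a b c d •
              (G.ξ p a * (G.ξ r c * (G.ξ q d * x))) else 0)) else 0 := by
              intro b
              by_cases hb : b = i <;> simp [hb]
            simp only [this, Finset.sum_ite_eq', Finset.mem_univ, if_true]
          simp only [this]
          by_cases h : t = s
          · simp only [h, if_true, W3, Finset.sum_mul, smul_mul_assoc, mul_assoc]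
            exact Finset.sum_congr rfl fun a _ => Finset.sum_congr rfl fun c _ =>
              Finset.sum_congr rfl fun d _ => by rw [hz.s12]
          · simp [h]
      · simp only [smul_ite, smul_zero]
        have : ∀ a b, (∑ c, ∑ d, if c = i then (if r = s then z a b c d •
            (G.ξ p a * (G.ξ t b * (G.ξ q d * x))) else 0) else 0) =
            ∑ d, (if r = s then z a b i d • (G.ξ p a * (G.ξ t b * (G.ξ q d * x))) else 0) := by
          intro a b
          rw [Finset.sum_comm]
          simp only [Finset.sum_ite_eq', Finset.mem_univ, if_true]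
        simp only [this]
        by_cases h : r = s
        · simp only [h, if_true, W3, Finset.sum_mul, smul_mul_assoc, mul_assoc]
          exact Finset.sum_congr rfl fun a _ => Finset.sum_congr rfl fun b _ =>
            Finset.sum_congr rfl fun d _ => by rw [hz.s23, hz.s12]
        · simp [h]
    · simp only [smul_ite, smul_zero, Finset.sum_ite_eq', Finset.mem_univ, if_true]
      by_cases h : q = s
      · simp only [h, if_true, W3, Finset.sum_mul, smul_mul_assoc, mul_assoc]
        exact Finset.sum_congr rfl fun a _ => Finset.sum_congr rfl fun b _ =>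
          Finset.sum_congr rfl fun c _ => by rw [hz.s34, hz.s23, hz.s12]
      · simp [h]
  · unfold W4
    simp only [Finset.sum_mul, smul_mul_assoc, mul_assoc]

end Pool.Agent.H91.GData
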