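import Pool.Agent.H91.Nil

/-! The exact identities. -/

namespace Pool.Agent.H91

theorem Sym4.cyc {R : Type*} {z : Fin 7 → Fin 7 → Fin 7 → Fin 7 → R} (hz : Sym4 z)
    (a b c d : Fin 7) : z b c d a = z a b c d := by
  rw [hz.s34, hz.s23, hz.s12]

namespace GData

variable {R A : Type*} [CommRing R] [Ring A] [Algebra R A] (G : GData R A)
  {z : Fin 7 → Fin 7 → Fin 7 → Fin 7 → R}

/-! ### anticommutation of the odd elements -/

theorem W3_mul_xi (i : Fin 7) (s t r q : Fin 4) (a : Fin 7) :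
    G.W3 z i s t r * G.ξ q a = -(G.ξ q a * G.W3 z i s t r) := by
  unfold W3
  simp only [Finset.sum_mul, Finset.mul_sum, smul_mul_assoc, mul_smul_comm,
    ← Finset.sum_neg_distrib]
  refine Finset.sum_congr rfl fun b _ => Finset.sum_congr rfl fun c _ =>
    Finset.sum_congr rfl fun d _ => ?_
  rw [mul_assoc, G.central t r c d, ← mul_assoc, G.anti s q b a, neg_mul, smul_neg, mul_assoc]

theorem W3_mul_W3 (i j : Fin 7) (s t r s' t' r' : Fin 4) :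
    G.W3 z i s t r * G.W3 z j s' t' r' = -(G.W3 z j s' t' r' * G.W3 z i s t r) := by
  conv_lhs => rw [W3.eq_def G z j]
  conv_rhs => rw [W3.eq_def G z j]
  simp only [Finset.sum_mul, Finset.mul_sum, smul_mul_assoc, mul_smul_comm,
    ← Finset.sum_neg_distrib]
  refine Finset.sum_congr rfl fun b _ => Finset.sum_congr rfl fun c _ =>
    Finset.sum_congr rfl fun d _ => ?_
  rw [← mul_assoc, G.W3_mul_xi, neg_mul, mul_assoc, ← G.central t' r' c d, smul_neg]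
  simp only [mul_assoc]

theorem W3_mul_W1 (i j k l : Fin 7) (s t r q : Fin 4) :
    G.W3 z i s t r * G.W1 z j k l q = -(G.W1 z j k l q * G.W3 z i s t r) := by
  conv_lhs => rw [W1.eq_def G z j]
  conv_rhs => rw [W1.eq_def G z j]
  simp only [Finset.sum_mul, Finset.mul_sum, smul_mul_assoc, mul_smul_comm,
    ← Finset.sum_neg_distrib]
  refine Finset.sum_congr rfl fun b _ => ?_
  rw [G.W3_mul_xi, smul_neg]

/-! ### derivatives -/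

theorem D0_u (hz : Sym4 z) (i : Fin 7) (x : A) : G.D 0 i (G.W4 z 0 1 2 3 * x) =
    G.W3 z i 1 2 3 * x + G.W4 z 0 1 2 3 * G.D 0 i x := by
  rw [G.D_W4_mul hz]; simp

theorem D1_u (hz : Sym4 z) (i : Fin 7) (x : A) : G.D 1 i (G.W4 z 0 1 2 3 * x) =
    (-G.W3 z i 0 2 3) * x + G.W4 z 0 1 2 3 * G.D 1 i x := by
  rw [G.D_W4_mul hz]; simp

theorem D2_u (hz : Sym4 z) (i : Fin 7) (x : A) : G.D 2 i (G.W4 z 0 1 2 3 * x) =
    (G.W3 z i 0 1 3) * x + G.W4 z 0 1 2 3 * G.D 2 i x := by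
  rw [G.D_W4_mul hz]; simp

theorem D3_u (hz : Sym4 z) (i : Fin 7) (x : A) : G.D 3 i (G.W4 z 0 1 2 3 * x) =
    (-G.W3 z i 0 1 2) * x + G.W4 z 0 1 2 3 * G.D 3 i x := by
  rw [G.D_W4_mul hz]; simp

theorem D_h (hz : Sym4 z) (s : Fin 4) (i l : Fin 7) : G.D s l (G.W3 z i 1 2 3) =
    (if (1 : Fin 4) = s then G.W2 z i l 2 3 else 0)
      - (if (2 : Fin 4) = s then G.W2 z i l 1 3 else 0)
      + (if (3 : Fin 4) = s then G.W2 z i l 1 2 else 0) := by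
  have h := G.D_W3_mul hz s l i 1 2 3 1
  rw [G.D_one, mul_zero, sub_zero] at h
  simpa only [mul_one] using h

/-- identity (e) -/
theorem exact_e (hz : Sym4 z) (i j k l : Fin 7) :
    z i j k l • (G.W4 z 0 1 2 3) ^ 7 =
      - ((7 : ℕ) • ((G.W4 z 0 1 2 3) ^ 6 * (G.W3 z i 1 2 3 * G.W1 z j k l 0))) := by
  have h0 : (G.W4 z 0 1 2 3) ^ 7 * G.W1 z j k l 0 = 0 :=
    G.P_eight 0 _ ((G.fac_u hz 0).pow_step G (G.W4_central 0 1 2 3) 7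
      ((G.fac_W1 j k l 0).mem_one G))
  have h1 := G.D_pow_mul 0 i _ _ (G.W4_central (z := z) 0 1 2 3) (G.D0_u hz i) 6 (G.W1 z j k l 0)
  rw [h0, map_zero, G.D_W1, if_pos rfl, hz.cyc i j k l, mul_smul_comm, mul_one] at h1
  exact (neg_eq_of_add_eq_zero_right h1.symm).symm

theorem y_zero (hz : Sym4 z) (s : Fin 4) (hs : s ≠ 0) (i j k : Fin 7) :
    (G.W4 z 0 1 2 3) ^ 6 * (G.W2 z j k 0 s * G.W3 z i 1 2 3) = 0 :=
  G.P_eight s _ ((G.fac_u hz s).pow_step G (G.W4_central 0 1 2 3) 6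
    ((G.fac_W2_right j k 0 s).step G (G.W2_central j k 0 s) ((G.fac_h hz i s hs).mem_one G)))

theorem exact_f1 (hz : Sym4 z) (i j k l : Fin 7) :
    (6 : ℕ) • ((G.W4 z 0 1 2 3) ^ 5 *
        (G.W2 z j k 0 1 * (G.W3 z i 1 2 3 * G.W3 z l 0 2 3))) +
      (G.W4 z 0 1 2 3) ^ 6 * (G.W2 z j k 0 1 * G.W2 z i l 2 3) +
      (G.W4 z 0 1 2 3) ^ 6 * (G.W3 z i 1 2 3 * G.W1 z j k l 0) = 0 := by
  have h1 := G.D_pow_mul 1 l _ _ (G.W4_central (z := z) 0 1 2 3) (G.D1_u hz l) 5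
    (G.W2 z j k 0 1 * G.W3 z i 1 2 3)
  rw [G.y_zero hz 1 (by decide) i j k, map_zero, G.D_W2_mul hz, G.D_h hz] at h1
  simp only [show (0 : Fin 4) ≠ 1 by decide, show (2 : Fin 4) ≠ 1 by decide,
    show (3 : Fin 4) ≠ 1 by decide, if_true, if_false, zero_sub, sub_zero, add_zero] at h1
  rw [h1]
  have h2 : -G.W3 z l 0 2 3 * (G.W2 z j k 0 1 * G.W3 z i 1 2 3) =
      G.W2 z j k 0 1 * (G.W3 z i 1 2 3 * G.W3 z l 0 2 3) := by
    rw [← mul_assoc, ← G.W2_central, mul_assoc, G.W3_mul_W3 i l, neg_mul, mul_neg]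
  have h3 : G.W3 z i 1 2 3 * G.W1 z j k l 0 = -(G.W1 z j k l 0 * G.W3 z i 1 2 3) :=
    G.W3_mul_W1 i j k l 1 2 3 0
  rw [h2, h3, mul_add]
  abel

theorem exact_f2 (hz : Sym4 z) (i j k l : Fin 7) :
    - ((6 : ℕ) • ((G.W4 z 0 1 2 3) ^ 5 *
        (G.W2 z j k 0 2 * (G.W3 z i 1 2 3 * G.W3 z l 0 1 3)))) -
      (G.W4 z 0 1 2 3) ^ 6 * (G.W2 z j k 0 2 * G.W2 z i l 1 3) +
      (G.W4 z 0 1 2 3) ^ 6 * (G.W3 z i 1 2 3 * G.W1 z j k l 0) = 0 := by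
  have h1 := G.D_pow_mul 2 l _ _ (G.W4_central (z := z) 0 1 2 3) (G.D2_u hz l) 5
    (G.W2 z j k 0 2 * G.W3 z i 1 2 3)
  rw [G.y_zero hz 2 (by decide) i j k, map_zero, G.D_W2_mul hz, G.D_h hz] at h1
  simp only [show (0 : Fin 4) ≠ 2 by decide, show (1 : Fin 4) ≠ 2 by decide,
    show (3 : Fin 4) ≠ 2 by decide, if_true, if_false, zero_sub, add_zero] at h1
  rw [h1]
  have h2 : G.W3 z l 0 1 3 * (G.W2 z j k 0 2 * G.W3 z i 1 2 3) =
      -(G.W2 z j k 0 2 * (G.W3 z i 1 2 3 * G.W3 z l 0 1 3)) := by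
    rw [← mul_assoc, ← G.W2_central, mul_assoc, G.W3_mul_W3 i l, mul_neg, neg_neg]
  have h3 : G.W3 z i 1 2 3 * G.W1 z j k l 0 = -(G.W1 z j k l 0 * G.W3 z i 1 2 3) :=
    G.W3_mul_W1 i j k l 1 2 3 0
  rw [h2, h3, mul_add]
  simp only [mul_neg, smul_neg]
  abel

theorem exact_f3 (hz : Sym4 z) (i j k l : Fin 7) :
    (6 : ℕ) • ((G.W4 z 0 1 2 3) ^ 5 *
        (G.W2 z j k 0 3 * (G.W3 z i 1 2 3 * G.W3 z l 0 1 2))) +
      (G.W4 z 0 1 2 3) ^ 6 * (G.W2 z j k 0 3 * G.W2 z i l 1 2) +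
      (G.W4 z 0 1 2 3) ^ 6 * (G.W3 z i 1 2 3 * G.W1 z j k l 0) = 0 := by
  have h1 := G.D_pow_mul 3 l _ _ (G.W4_central (z := z) 0 1 2 3) (G.D3_u hz l) 5
    (G.W2 z j k 0 3 * G.W3 z i 1 2 3)
  rw [G.y_zero hz 3 (by decide) i j k, map_zero, G.D_W2_mul hz, G.D_h hz] at h1
  simp only [show (0 : Fin 4) ≠ 3 by decide, show (1 : Fin 4) ≠ 3 by decide,
    show (2 : Fin 4) ≠ 3 by decide, if_true, if_false, zero_sub, sub_zero, zero_add] at h1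
  rw [h1]
  have h2 : -G.W3 z l 0 1 2 * (G.W2 z j k 0 3 * G.W3 z i 1 2 3) =
      G.W2 z j k 0 3 * (G.W3 z i 1 2 3 * G.W3 z l 0 1 2) := by
    rw [← mul_assoc, ← G.W2_central, mul_assoc, G.W3_mul_W3 i l, neg_mul, mul_neg]
  have h3 : G.W3 z i 1 2 3 * G.W1 z j k l 0 = -(G.W1 z j k l 0 * G.W3 z i 1 2 3) :=
    G.W3_mul_W1 i j k l 1 2 3 0
  rw [h2, h3, mul_add]
  abel

end GData

end Pool.Agent.H91
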