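import Mathlib

/-! Abstract Grassmann data: four families of seven anticommuting elements, with
contraction operators. -/

namespace Pool.Agent.H91

/-- Four families of seven anticommuting square-zero elements of a ring `A`, whose pairwise
products are central, with the contraction operators `D s i`. -/
structure GData (R A : Type*) [CommRing R] [Ring A] [Algebra R A] where
  ξ : Fin 4 → Fin 7 → A
  anti : ∀ s t a b, ξ s a * ξ t b = -(ξ t b * ξ s a)
  sq : ∀ s a, ξ s a * ξ s a = 0
  central : ∀ s t a b x, (ξ s a * ξ t b) * x = x * (ξ s a * ξ t b)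
  D : Fin 4 → Fin 7 → A →ₗ[R] A
  D_mul : ∀ s i t a x, D s i (ξ t a * x) = (if t = s ∧ a = i then x else 0) - ξ t a * D s i x
  D_one : ∀ s i, D s i 1 = 0
  nil : ∀ s (a : Fin 8 → Fin 7), (List.ofFn fun i => ξ s (a i)).prod = 0

/-- A symmetric four-index array. -/
structure Sym4 {R : Type*} (z : Fin 7 → Fin 7 → Fin 7 → Fin 7 → R) : Prop where
  s12 : ∀ a b c d, z a b c d = z b a c d
  s23 : ∀ a b c d, z a b c d = z a c b d
  s34 : ∀ a b c d, z a b c d = z a b d c

theorem sum_antisymm_zero {M : Type*} [AddCommGroup M] {n : ℕ} (F : Fin n → Fin n → M)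
    (h1 : ∀ a, F a a = 0) (h2 : ∀ a b, F a b = - F b a) : ∑ a, ∑ b, F a b = 0 := by
  rw [← Finset.sum_product']
  refine Finset.sum_involution (fun p _ => (p.2, p.1)) ?_ ?_ ?_ ?_
  · rintro ⟨a, b⟩ _
    change F a b + F b a = 0
    rw [h2 a b]; abel
  · rintro ⟨a, b⟩ _ hne heq
    have : a = b := by
      have := congrArg Prod.fst heq
      exact this.symm
    subst this
    exact hne (h1 a)
  · intro _ _; exact Finset.mem_univ _
  · rintro ⟨a, b⟩ _; rfl

namespace GData

variable {R A : Type*} [CommRing R] [Ring A] [Algebra R A] (G : GData R A)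
  (z : Fin 7 → Fin 7 → Fin 7 → Fin 7 → R)

/-- One odd argument. -/
def W1 (i j k : Fin 7) (s : Fin 4) : A := ∑ d, z i j k d • G.ξ s d

/-- Two odd arguments. -/
def W2 (i j : Fin 7) (s t : Fin 4) : A := ∑ c, ∑ d, z i j c d • (G.ξ s c * G.ξ t d)

/-- Three odd arguments. -/
def W3 (i : Fin 7) (s t r : Fin 4) : A :=
  ∑ b, ∑ c, ∑ d, z i b c d • (G.ξ s b * (G.ξ t c * G.ξ r d))

/-- Four odd arguments. -/
def W4 (s t r q : Fin 4) : A :=
  ∑ a, ∑ b, ∑ c, ∑ d, z a b c d • (G.ξ s a * (G.ξ t b * (G.ξ r c * G.ξ q d)))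

variable {z}

theorem central' (s t : Fin 4) (a b : Fin 7) (x : A) :
    x * (G.ξ s a * G.ξ t b) = (G.ξ s a * G.ξ t b) * x := (G.central s t a b x).symm

theorem W2_central (i j : Fin 7) (s t : Fin 4) (x : A) :
    G.W2 z i j s t * x = x * G.W2 z i j s t := by
  simp only [W2, Finset.sum_mul, Finset.mul_sum, smul_mul_assoc, mul_smul_comm, G.central]

theorem W4_central (s t r q : Fin 4) (x : A) :
    G.W4 z s t r q * x = x * G.W4 z s t r q := by
  simp only [W4, Finset.sum_mul, Finset.mul_sum, smul_mul_assoc, mul_smul_comm]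
  refine Finset.sum_congr rfl fun a _ => Finset.sum_congr rfl fun b _ =>
    Finset.sum_congr rfl fun c _ => Finset.sum_congr rfl fun d _ => ?_
  congr 1
  rw [← mul_assoc (G.ξ s a), mul_assoc, G.central r q c d x, ← mul_assoc, G.central s t a b x]
  simp only [mul_assoc]

/-! ### symmetries of `W4` -/

theorem W4_swap12 (hz : Sym4 z) (s t r q : Fin 4) :
    G.W4 z s t r q = - G.W4 z t s r q := by
  unfold W4
  rw [Finset.sum_comm, ← Finset.sum_neg_distrib]
  refine Finset.sum_congr rfl fun b _ => ?_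
  rw [← Finset.sum_neg_distrib]
  refine Finset.sum_congr rfl fun a _ => ?_
  rw [← Finset.sum_neg_distrib]
  refine Finset.sum_congr rfl fun c _ => ?_
  rw [← Finset.sum_neg_distrib]
  refine Finset.sum_congr rfl fun d _ => ?_
  rw [hz.s12 a b c d, ← mul_assoc (G.ξ s a), G.anti s t a b, neg_mul, smul_neg, mul_assoc]

theorem W4_swap23 (hz : Sym4 z) (s t r q : Fin 4) :
    G.W4 z s t r q = - G.W4 z s r t q := by
  unfold W4
  rw [← Finset.sum_neg_distrib]
  refine Finset.sum_congr rfl fun a _ => ?_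
  rw [Finset.sum_comm, ← Finset.sum_neg_distrib]
  refine Finset.sum_congr rfl fun c _ => ?_
  rw [← Finset.sum_neg_distrib]
  refine Finset.sum_congr rfl fun b _ => ?_
  rw [← Finset.sum_neg_distrib]
  refine Finset.sum_congr rfl fun d _ => ?_
  rw [hz.s23 a b c d, ← mul_assoc (G.ξ t b), G.anti t r b c, neg_mul, mul_neg, smul_neg, mul_assoc]

theorem W4_swap34 (hz : Sym4 z) (s t r q : Fin 4) :
    G.W4 z s t r q = - G.W4 z s t q r := by
  unfold W4
  rw [← Finset.sum_neg_distrib]
  refine Finset.sum_congr rfl fun a _ => ?_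
  rw [← Finset.sum_neg_distrib]
  refine Finset.sum_congr rfl fun b _ => ?_
  rw [Finset.sum_comm, ← Finset.sum_neg_distrib]
  refine Finset.sum_congr rfl fun d _ => ?_
  rw [← Finset.sum_neg_distrib]
  refine Finset.sum_congr rfl fun c _ => ?_
  rw [hz.s34 a b c d, G.anti r q c d, mul_neg, mul_neg, smul_neg]

theorem W4_zero12 (hz : Sym4 z) (s r q : Fin 4) : G.W4 z s s r q = 0 := by
  unfold W4
  refine sum_antisymm_zero _ (fun a => ?_) (fun a b => ?_)
  · refine Finset.sum_eq_zero fun c _ => Finset.sum_eq_zero fun d _ => ?_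
    rw [← mul_assoc, G.sq, zero_mul, smul_zero]
  · rw [← Finset.sum_neg_distrib]
    refine Finset.sum_congr rfl fun c _ => ?_
    rw [← Finset.sum_neg_distrib]
    refine Finset.sum_congr rfl fun d _ => ?_
    rw [hz.s12 a b c d, ← mul_assoc (G.ξ s a), G.anti s s a b, neg_mul, smul_neg, mul_assoc]

theorem W4_zero23 (hz : Sym4 z) (s t q : Fin 4) : G.W4 z s t t q = 0 := by
  unfold W4
  refine Finset.sum_eq_zero fun a _ => ?_
  refine sum_antisymm_zero _ (fun b => ?_) (fun b c => ?_)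
  · refine Finset.sum_eq_zero fun d _ => ?_
    rw [← mul_assoc (G.ξ t b), G.sq, zero_mul, mul_zero, smul_zero]
  · rw [← Finset.sum_neg_distrib]
    refine Finset.sum_congr rfl fun d _ => ?_
    rw [hz.s23 a b c d, ← mul_assoc (G.ξ t b), G.anti t t b c, neg_mul, mul_neg, smul_neg,
      mul_assoc]

theorem W4_zero34 (hz : Sym4 z) (s t q : Fin 4) : G.W4 z s t q q = 0 := by
  unfold W4
  refine Finset.sum_eq_zero fun a _ => Finset.sum_eq_zero fun b _ => ?_
  refine sum_antisymm_zero _ (fun c => ?_) (fun c d => ?_)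
  · rw [G.sq, mul_zero, mul_zero, smul_zero]
  · rw [hz.s34 a b c d, G.anti q q c d, mul_neg, mul_neg, smul_neg]

theorem W4_zero13 (hz : Sym4 z) (s t q : Fin 4) : G.W4 z s t s q = 0 := by
  rw [G.W4_swap23 hz, G.W4_zero12 hz, neg_zero]

theorem W4_zero24 (hz : Sym4 z) (s t q : Fin 4) : G.W4 z s t q t = 0 := by
  rw [G.W4_swap34 hz, G.W4_zero23 hz, neg_zero]

theorem W4_zero14 (hz : Sym4 z) (s t q : Fin 4) : G.W4 z s t q s = 0 := by
  rw [G.W4_swap34 hz, G.W4_zero13 hz, neg_zero]

/-! ### symmetries of `W3` -/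

theorem W3_swap12 (hz : Sym4 z) (i : Fin 7) (s t r : Fin 4) :
    G.W3 z i s t r = - G.W3 z i t s r := by
  unfold W3
  rw [Finset.sum_comm, ← Finset.sum_neg_distrib]
  refine Finset.sum_congr rfl fun b _ => ?_
  rw [← Finset.sum_neg_distrib]
  refine Finset.sum_congr rfl fun a _ => ?_
  rw [← Finset.sum_neg_distrib]
  refine Finset.sum_congr rfl fun c _ => ?_
  rw [hz.s23 i a b c, ← mul_assoc (G.ξ s a), G.anti s t a b, neg_mul, smul_neg, mul_assoc]

theorem W3_swap23 (hz : Sym4 z) (i : Fin 7) (s t r : Fin 4) :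
    G.W3 z i s t r = - G.W3 z i s r t := by
  unfold W3
  rw [← Finset.sum_neg_distrib]
  refine Finset.sum_congr rfl fun a _ => ?_
  rw [Finset.sum_comm, ← Finset.sum_neg_distrib]
  refine Finset.sum_congr rfl fun c _ => ?_
  rw [← Finset.sum_neg_distrib]
  refine Finset.sum_congr rfl fun b _ => ?_
  rw [hz.s34 i a b c, G.anti t r b c, mul_neg, smul_neg]

theorem W3_zero12 (hz : Sym4 z) (i : Fin 7) (s r : Fin 4) : G.W3 z i s s r = 0 := by
  unfold W3
  refine sum_antisymm_zero _ (fun a => ?_) (fun a b => ?_)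
  · refine Finset.sum_eq_zero fun c _ => ?_
    rw [← mul_assoc, G.sq, zero_mul, smul_zero]
  · rw [← Finset.sum_neg_distrib]
    refine Finset.sum_congr rfl fun c _ => ?_
    rw [hz.s23 i a b c, ← mul_assoc (G.ξ s a), G.anti s s a b, neg_mul, smul_neg, mul_assoc]

theorem W3_zero23 (hz : Sym4 z) (i : Fin 7) (s t : Fin 4) : G.W3 z i s t t = 0 := by
  unfold W3
  refine Finset.sum_eq_zero fun a _ => ?_
  refine sum_antisymm_zero _ (fun b => ?_) (fun b c => ?_)
  · rw [G.sq, mul_zero, smul_zero]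
  · rw [hz.s34 i a b c, G.anti t t b c, mul_neg, smul_neg]

theorem W3_zero13 (hz : Sym4 z) (i : Fin 7) (s t : Fin 4) : G.W3 z i s t s = 0 := by
  rw [G.W3_swap23 hz, G.W3_zero12 hz, neg_zero]

/-! ### the contraction operators -/

theorem D_xi (s i t a) : G.D s i (G.ξ t a) = if t = s ∧ a = i then 1 else 0 := by
  have h := G.D_mul s i t a 1
  rw [G.D_one, mul_zero, sub_zero, mul_one] at h
  exact h

end GData

end Pool.Agent.H91
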