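import Pool.Agent.H91.Exact
import Pool.Agent.H91.Arrow
import Pool.Agent.H91.Gram

/-! The relations coming from the vanishing of the `7 x 7` minors. -/

namespace Pool.Agent.H91

open Matrix

/-- The flattening of a four-index array. -/
def Nmat {R : Type*} (z : Fin 7 → Fin 7 → Fin 7 → Fin 7 → R) :
    Matrix (Fin 7 × Fin 7) (Fin 7 × Fin 7) R := fun α β => z α.1 α.2 β.1 β.2

/-- first letter of the pairs -/
def pS : Fin 6 → Fin 4 := ![0, 0, 0, 1, 1, 2]
/-- second letter of the pairs -/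
def pT : Fin 6 → Fin 4 := ![1, 2, 3, 2, 3, 3]
/-- first letter of the complementary pairs -/
def cS : Fin 6 → Fin 4 := ![2, 1, 1, 0, 0, 0]
/-- second letter of the complementary pairs -/
def cT : Fin 6 → Fin 4 := ![3, 3, 2, 3, 2, 1]

namespace GData

variable {R A : Type*} [CommRing R] [Ring A] [Algebra R A] (G : GData R A)
  {z : Fin 7 → Fin 7 → Fin 7 → Fin 7 → R}

/-- `w s t` as an even quadric -/
def w (s t : Fin 4) (α : Fin 7 × Fin 7) : Subalgebra.center R A :=
  ⟨G.ξ s α.1 * G.ξ t α.2, Subalgebra.mem_center_iff.2 fun b => (G.central s t α.1 α.2 b).symm⟩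

/-- `u` as an element of the centre -/
def uc (z : Fin 7 → Fin 7 → Fin 7 → Fin 7 → R) : Subalgebra.center R A :=
  ⟨G.W4 z 0 1 2 3, Subalgebra.mem_center_iff.2 fun b => (G.W4_central 0 1 2 3 b).symm⟩

/-- The bilinear form. -/
def B (z : Fin 7 → Fin 7 → Fin 7 → Fin 7 → R) (q q' : Fin 7 × Fin 7 → Subalgebra.center R A) :
    Subalgebra.center R A :=
  ∑ α, q α * ∑ β, (algebraMap R (Subalgebra.center R A) (z α.1 α.2 β.1 β.2)) * q' β

theorem coe_B (q q' : Fin 7 × Fin 7 → Subalgebra.center R A) :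
    (B z q q' : A) = ∑ a, ∑ b, ∑ c, ∑ d, z a b c d • ((q (a, b) : A) * (q' (c, d) : A)) := by
  unfold B
  rw [Fintype.sum_prod_type]
  push_cast
  refine Finset.sum_congr rfl fun a _ => Finset.sum_congr rfl fun b _ => ?_
  rw [Fintype.sum_prod_type, Finset.mul_sum]
  refine Finset.sum_congr rfl fun c _ => ?_
  rw [Finset.mul_sum]
  refine Finset.sum_congr rfl fun d _ => ?_
  change (q (a, b) : A) * (algebraMap R A (z a b c d) * (q' (c, d) : A)) = _
  rw [Algebra.smul_def, ← mul_assoc, ← Algebra.commutes, mul_assoc]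

theorem B_w_w (s t r q : Fin 4) : (B z (G.w s t) (G.w r q) : A) = G.W4 z s t r q := by
  rw [coe_B]
  unfold W4 w
  simp only [mul_assoc]

theorem B_diag (hz : Sym4 z) (i j : Fin 6) :
    B z (G.w (pS i) (pT i)) (G.w (cS j) (cT j)) =
      if i = j then (![1, -1, 1, 1, -1, 1] : Fin 6 → Subalgebra.center R A) i * G.uc z else 0 := by
  apply Subtype.ext
  rw [B_w_w]
  fin_cases i <;> fin_cases j
  -- row 0 : pair (0,1)
  · change G.W4 z 0 1 2 3 = _
    simp [uc]
  · change G.W4 z 0 1 1 3 = _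
    simp [G.W4_zero23 hz]
  · change G.W4 z 0 1 1 2 = _
    simp [G.W4_zero23 hz]
  · change G.W4 z 0 1 0 3 = _
    simp [G.W4_zero13 hz]
  · change G.W4 z 0 1 0 2 = _
    simp [G.W4_zero13 hz]
  · change G.W4 z 0 1 0 1 = _
    simp [G.W4_zero13 hz]
  -- row 1 : pair (0,2)
  · change G.W4 z 0 2 2 3 = _
    simp [G.W4_zero23 hz]
  · change G.W4 z 0 2 1 3 = _
    simp [uc, G.W4_swap23 hz 0 2 1 3]
  · change G.W4 z 0 2 1 2 = _
    simp [G.W4_zero24 hz]
  · change G.W4 z 0 2 0 3 = _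
    simp [G.W4_zero13 hz]
  · change G.W4 z 0 2 0 2 = _
    simp [G.W4_zero13 hz]
  · change G.W4 z 0 2 0 1 = _
    simp [G.W4_zero13 hz]
  -- row 2 : pair (0,3)
  · change G.W4 z 0 3 2 3 = _
    simp [G.W4_zero24 hz]
  · change G.W4 z 0 3 1 3 = _
    simp [G.W4_zero24 hz]
  · change G.W4 z 0 3 1 2 = _
    simp [uc, G.W4_swap23 hz 0 3 1 2, G.W4_swap34 hz 0 1 3 2]
  · change G.W4 z 0 3 0 3 = _
    simp [G.W4_zero13 hz]
  · change G.W4 z 0 3 0 2 = _
    simp [G.W4_zero13 hz]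
  · change G.W4 z 0 3 0 1 = _
    simp [G.W4_zero13 hz]
  -- row 3 : pair (1,2)
  · change G.W4 z 1 2 2 3 = _
    simp [G.W4_zero23 hz]
  · change G.W4 z 1 2 1 3 = _
    simp [G.W4_zero13 hz]
  · change G.W4 z 1 2 1 2 = _
    simp [G.W4_zero13 hz]
  · change G.W4 z 1 2 0 3 = _
    simp [uc, G.W4_swap23 hz 1 2 0 3, G.W4_swap12 hz 1 0 2 3]
  · change G.W4 z 1 2 0 2 = _
    simp [G.W4_zero24 hz]
  · change G.W4 z 1 2 0 1 = _
    simp [G.W4_zero14 hz]
  -- row 4 : pair (1,3)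
  · change G.W4 z 1 3 2 3 = _
    simp [G.W4_zero24 hz]
  · change G.W4 z 1 3 1 3 = _
    simp [G.W4_zero13 hz]
  · change G.W4 z 1 3 1 2 = _
    simp [G.W4_zero13 hz]
  · change G.W4 z 1 3 0 3 = _
    simp [G.W4_zero24 hz]
  · change G.W4 z 1 3 0 2 = _
    simp [uc, G.W4_swap23 hz 1 3 0 2, G.W4_swap12 hz 1 0 3 2, G.W4_swap34 hz 0 1 3 2]
  · change G.W4 z 1 3 0 1 = _
    simp [G.W4_zero14 hz]
  -- row 5 : pair (2,3)
  · change G.W4 z 2 3 2 3 = _
    simp [G.W4_zero13 hz]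
  · change G.W4 z 2 3 1 3 = _
    simp [G.W4_zero24 hz]
  · change G.W4 z 2 3 1 2 = _
    simp [G.W4_zero14 hz]
  · change G.W4 z 2 3 0 3 = _
    simp [G.W4_zero24 hz]
  · change G.W4 z 2 3 0 2 = _
    simp [G.W4_zero14 hz]
  · change G.W4 z 2 3 0 1 = _
    simp [uc, G.W4_swap23 hz 2 3 0 1, G.W4_swap12 hz 2 0 3 1, G.W4_swap34 hz 0 2 3 1,
      G.W4_swap23 hz 0 2 1 3]

/-- The main relation (K). -/
theorem K_rel (hz : Sym4 z)
    (hN : ∀ f g : Fin 7 → Fin 7 × Fin 7, ((Nmat z).submatrix f g).det = 0)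
    (q q' : Fin 7 × Fin 7 → Subalgebra.center R A) :
    G.uc z ^ 6 * B z q q' = G.uc z ^ 5 *
      ∑ i, (![1, -1, 1, 1, -1, 1] : Fin 6 → Subalgebra.center R A) i *
        B z q (G.w (cS i) (cT i)) * B z (G.w (pS i) (pT i)) q' := by
  let rows : Fin 7 → (Fin 7 × Fin 7 → Subalgebra.center R A) :=
    fun i => Fin.cases q (fun i' => G.w (pS i') (pT i')) i
  let cols : Fin 7 → (Fin 7 × Fin 7 → Subalgebra.center R A) :=
    fun i => Fin.cases q' (fun i' => G.w (cS i') (cT i')) i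
  have h0 := det_gram_zero (K := Subalgebra.center R A) (Nmat z) hN
    (Matrix.of rows) (Matrix.of cols)ᵀ
  have h1 : Matrix.of rows * ((Nmat z).map (algebraMap R (Subalgebra.center R A)) *
      (Matrix.of cols)ᵀ) =
      arrow (B z q q') (fun i => B z q (G.w (cS i) (cT i)))
        (fun i => B z (G.w (pS i) (pT i)) q')
        (![1, -1, 1, 1, -1, 1] : Fin 6 → Subalgebra.center R A) (G.uc z) := by
    refine Matrix.ext fun i j => ?_
    have h2 : (Matrix.of rows * ((Nmat z).map (algebraMap R (Subalgebra.center R A)) *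
        (Matrix.of cols)ᵀ)) i j = B z (rows i) (cols j) := by
      simp only [Matrix.mul_apply, Matrix.of_apply, Matrix.map_apply, Matrix.transpose_apply, B,
        Nmat]
    rw [h2]
    refine Fin.cases ?_ (fun i' => ?_) i
    · refine Fin.cases ?_ (fun j' => ?_) j
      · rfl
      · rfl
    · refine Fin.cases ?_ (fun j' => ?_) j
      · rfl
      · rw [arrow_succ_succ]
        exact G.B_diag hz i' j'
  rw [h1, det_arrow] at h0
  · have h3 : ∏ i, (![1, -1, 1, 1, -1, 1] : Fin 6 → Subalgebra.center R A) i = 1 := by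
      simp only [Fin.prod_univ_succ, Fin.prod_univ_zero, Matrix.cons_val_zero,
        Matrix.cons_val_succ]
      ring
    rw [h3, one_mul] at h0
    exact sub_eq_zero.1 h0
  · intro i
    fin_cases i
    · exact one_mul 1
    · change (-1 : Subalgebra.center R A) * -1 = 1
      ring
    · exact one_mul 1
    · exact one_mul 1
    · change (-1 : Subalgebra.center R A) * -1 = 1
      ring
    · exact one_mul 1

end GData

end Pool.Agent.H91
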