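import Pool.Agent.H91.KRel

/-! The main identity `11 * z i j k l * u ^ 7 = 0`. -/

namespace Pool.Agent.H91

theorem Sym4.rot2 {R : Type*} {z : Fin 7 → Fin 7 → Fin 7 → Fin 7 → R} (hz : Sym4 z)
    (a b c d : Fin 7) : z a b c d = z c d a b := by
  rw [hz.s23, hz.s12, hz.s34, hz.s23]

namespace GData

variable {R A : Type*} [CommRing R] [Ring A] [Algebra R A] (G : GData R A)
  {z : Fin 7 → Fin 7 → Fin 7 → Fin 7 → R}

/-- The even quadric `e_j e_k`. -/
def ee (R A : Type*) [CommRing R] [Ring A] [Algebra R A] (j k : Fin 7) (α : Fin 7 × Fin 7) :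
    Subalgebra.center R A := if α = (j, k) then 1 else 0

/-- The even quadric `h * e_l * w_0`. -/
def hq (h : A) (hh : ∀ d x, (h * G.ξ 0 d) * x = x * (h * G.ξ 0 d)) (l : Fin 7)
    (α : Fin 7 × Fin 7) : Subalgebra.center R A :=
  if α.1 = l then ⟨h * G.ξ 0 α.2, Subalgebra.mem_center_iff.2 fun b => (hh α.2 b).symm⟩ else 0

theorem B_ee_w (j k : Fin 7) (s t : Fin 4) :
    (B z (ee R A j k) (G.w s t) : A) = G.W2 z j k s t := by
  rw [coe_B]
  unfold ee w W2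
  rw [Finset.sum_eq_single j, Finset.sum_eq_single k]
  · simp
  · intro b _ hb
    have : (j, b) ≠ (j, k) := fun h => hb (Prod.ext_iff.1 h).2
    simp [this]
  · intro h; exact absurd (Finset.mem_univ _) h
  · intro a _ ha
    refine Finset.sum_eq_zero fun b _ => ?_
    have : (a, b) ≠ (j, k) := fun h => ha (Prod.ext_iff.1 h).1
    simp [this]
  · intro h; exact absurd (Finset.mem_univ _) h

theorem B_w_ee (hz : Sym4 z) (j k : Fin 7) (s t : Fin 4) :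
    (B z (G.w s t) (ee R A j k) : A) = G.W2 z j k s t := by
  rw [coe_B]
  unfold ee w W2
  refine Finset.sum_congr rfl fun a _ => Finset.sum_congr rfl fun b _ => ?_
  rw [Finset.sum_eq_single j, Finset.sum_eq_single k]
  · simp only [if_true, OneMemClass.coe_one, mul_one]
    rw [hz.rot2]
  · intro b _ hb
    have : (j, b) ≠ (j, k) := fun h => hb (Prod.ext_iff.1 h).2
    simp [this]
  · intro h; exact absurd (Finset.mem_univ _) h
  · intro a _ ha
    refine Finset.sum_eq_zero fun b _ => ?_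
    have : (a, b) ≠ (j, k) := fun h => ha (Prod.ext_iff.1 h).1
    simp [this]
  · intro h; exact absurd (Finset.mem_univ _) h

theorem B_ee_ee (i j k l : Fin 7) :
    (B z (ee R A j k) (ee R A i l) : A) = z j k i l • 1 := by
  rw [coe_B]
  unfold ee
  rw [Finset.sum_eq_single j, Finset.sum_eq_single k, Finset.sum_eq_single i,
    Finset.sum_eq_single l]
  · simp
  · intro b _ hb
    have : (i, b) ≠ (i, l) := fun h => hb (Prod.ext_iff.1 h).2
    simp [this]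
  · intro h; exact absurd (Finset.mem_univ _) h
  · intro a _ ha
    refine Finset.sum_eq_zero fun b _ => ?_
    have : (a, b) ≠ (i, l) := fun h => ha (Prod.ext_iff.1 h).1
    simp [this]
  · intro h; exact absurd (Finset.mem_univ _) h
  · intro b _ hb
    have : (j, b) ≠ (j, k) := fun h => hb (Prod.ext_iff.1 h).2
    simp [this]
  · intro h; exact absurd (Finset.mem_univ _) h
  · intro a _ ha
    refine Finset.sum_eq_zero fun b _ => ?_
    have : (a, b) ≠ (j, k) := fun h => ha (Prod.ext_iff.1 h).1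
    simp [this]
  · intro h; exact absurd (Finset.mem_univ _) h

theorem B_ee_hq (h : A) (hh : ∀ d x, (h * G.ξ 0 d) * x = x * (h * G.ξ 0 d)) (j k l : Fin 7) :
    (B z (ee R A j k) (G.hq h hh l) : A) = h * G.W1 z j k l 0 := by
  rw [coe_B]
  unfold ee hq W1
  rw [Finset.sum_eq_single j, Finset.sum_eq_single k, Finset.sum_eq_single l]
  · simp [Finset.mul_sum]
  · intro c _ hc
    refine Finset.sum_eq_zero fun d _ => ?_
    simp [hc]
  · intro h; exact absurd (Finset.mem_univ _) h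
  · intro b _ hb
    have : (j, b) ≠ (j, k) := fun h => hb (Prod.ext_iff.1 h).2
    simp [this]
  · intro h; exact absurd (Finset.mem_univ _) h
  · intro a _ ha
    refine Finset.sum_eq_zero fun b _ => ?_
    have : (a, b) ≠ (j, k) := fun h => ha (Prod.ext_iff.1 h).1
    simp [this]
  · intro h; exact absurd (Finset.mem_univ _) h

theorem B_w_hq (hz : Sym4 z) (h : A) (hh : ∀ d x, (h * G.ξ 0 d) * x = x * (h * G.ξ 0 d))
    (l : Fin 7) (s t : Fin 4) :
    (B z (G.w s t) (G.hq h hh l) : A) = h * G.W3 z l s t 0 := by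
  rw [coe_B]
  unfold hq w W3
  simp only [Finset.mul_sum]
  refine Finset.sum_congr rfl fun a _ => Finset.sum_congr rfl fun b _ => ?_
  rw [Finset.sum_eq_single l]
  · refine Finset.sum_congr rfl fun d _ => ?_
    simp only [if_true]
    rw [mul_smul_comm, hz.s23 a b l d, hz.s12 a l b d, ← mul_assoc, G.central s t a b h,
      mul_assoc, mul_assoc]
  · intro c _ hc
    refine Finset.sum_eq_zero fun d _ => ?_
    simp [hc]
  · intro h; exact absurd (Finset.mem_univ _) h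

theorem h_cond (i : Fin 7) (s t r : Fin 4) (d : Fin 7) (x : A) :
    (G.W3 z i s t r * G.ξ 0 d) * x = x * (G.W3 z i s t r * G.ξ 0 d) := by
  unfold W3
  simp only [Finset.sum_mul, Finset.mul_sum, smul_mul_assoc, mul_smul_comm]
  refine Finset.sum_congr rfl fun a _ => Finset.sum_congr rfl fun b _ =>
    Finset.sum_congr rfl fun c _ => ?_
  congr 1
  rw [← mul_assoc (G.ξ s a), mul_assoc, mul_assoc (G.ξ s a * G.ξ t b),
    ← mul_assoc (G.ξ r c), G.central r 0 c d x, ← mul_assoc, G.central s t a b x]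
  simp only [mul_assoc]

/-- relation (a) -/
theorem rel_a (hz : Sym4 z)
    (hN : ∀ f g : Fin 7 → Fin 7 × Fin 7, ((Nmat z).submatrix f g).det = 0)
    (i j k l : Fin 7) :
    z i j k l • (G.W4 z 0 1 2 3) ^ 6 = (G.W4 z 0 1 2 3) ^ 5 *
      ((G.W2 z j k 0 1 * G.W2 z i l 2 3 - G.W2 z j k 0 2 * G.W2 z i l 1 3
        + G.W2 z j k 0 3 * G.W2 z i l 1 2)
      + (G.W2 z i l 0 1 * G.W2 z j k 2 3 - G.W2 z i l 0 2 * G.W2 z j k 1 3
        + G.W2 z i l 0 3 * G.W2 z j k 1 2)) := by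
  have h := congrArg Subtype.val (G.K_rel hz hN (ee R A j k) (ee R A i l))
  have hc : ∀ s t, (B z (ee R A j k) (G.w s t) : A) = G.W2 z j k s t := G.B_ee_w j k
  have hd : ∀ s t, (B z (G.w s t) (ee R A i l) : A) = G.W2 z i l s t := G.B_w_ee hz i l
  have he : (B z (ee R A j k) (ee R A i l) : A) = z j k i l • 1 := B_ee_ee i j k l
  have hu : (G.uc z : A) = G.W4 z 0 1 2 3 := rfl
  simp only [Fin.sum_univ_succ, Fin.sum_univ_zero, Matrix.cons_val_zero, Matrix.cons_val_succ,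
    pS, pT, cS, cT] at h
  push_cast at h
  simp only [hc, hd, he, hu] at h
  have hzz : z j k i l = z i j k l := by rw [hz.s23 j k i l, hz.s12 j i k l]
  rw [hzz, mul_smul_comm, mul_one] at h
  rw [h]
  congr 1
  rw [G.W2_central i l 0 1, G.W2_central i l 0 2, G.W2_central i l 0 3]
  simp only [one_mul, neg_mul, mul_assoc]
  abel

/-- relation (b) -/
theorem rel_b (hz : Sym4 z)
    (hN : ∀ f g : Fin 7 → Fin 7 × Fin 7, ((Nmat z).submatrix f g).det = 0)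
    (i j k l : Fin 7) :
    (G.W4 z 0 1 2 3) ^ 6 * (G.W3 z i 1 2 3 * G.W1 z j k l 0) = (G.W4 z 0 1 2 3) ^ 5 *
      (G.W2 z j k 0 1 * (G.W3 z i 1 2 3 * G.W3 z l 0 2 3)
        - G.W2 z j k 0 2 * (G.W3 z i 1 2 3 * G.W3 z l 0 1 3)
        + G.W2 z j k 0 3 * (G.W3 z i 1 2 3 * G.W3 z l 0 1 2)) := by
  have h := congrArg Subtype.val
    (G.K_rel hz hN (ee R A j k) (G.hq (G.W3 z i 1 2 3) (G.h_cond i 1 2 3) l))
  have hc : ∀ s t, (B z (ee R A j k) (G.w s t) : A) = G.W2 z j k s t := G.B_ee_w j k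
  have hd : ∀ s t, (B z (G.w s t) (G.hq (G.W3 z i 1 2 3) (G.h_cond i 1 2 3) l) : A) =
      G.W3 z i 1 2 3 * G.W3 z l s t 0 := G.B_w_hq hz _ _ l
  have he : (B z (ee R A j k) (G.hq (G.W3 z i 1 2 3) (G.h_cond i 1 2 3) l) : A) =
      G.W3 z i 1 2 3 * G.W1 z j k l 0 := G.B_ee_hq _ _ j k l
  have hu : (G.uc z : A) = G.W4 z 0 1 2 3 := rfl
  simp only [Fin.sum_univ_succ, Fin.sum_univ_zero, Matrix.cons_val_zero, Matrix.cons_val_succ,
    pS, pT, cS, cT] at h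
  push_cast at h
  simp only [hc, hd, he, hu] at h
  rw [h]
  congr 1
  have e1 : G.W3 z l 0 1 0 = 0 := G.W3_zero13 hz l 0 1
  have e2 : G.W3 z l 0 2 0 = 0 := G.W3_zero13 hz l 0 2
  have e3 : G.W3 z l 0 3 0 = 0 := G.W3_zero13 hz l 0 3
  have e4 : G.W3 z l 1 2 0 = G.W3 z l 0 1 2 := by
    rw [G.W3_swap23 hz l 1 2 0, G.W3_swap12 hz l 1 0 2, neg_neg]
  have e5 : G.W3 z l 1 3 0 = G.W3 z l 0 1 3 := by
    rw [G.W3_swap23 hz l 1 3 0, G.W3_swap12 hz l 1 0 3, neg_neg]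
  have e6 : G.W3 z l 2 3 0 = G.W3 z l 0 2 3 := by
    rw [G.W3_swap23 hz l 2 3 0, G.W3_swap12 hz l 2 0 3, neg_neg]
  simp only [e1, e2, e3, e4, e5, e6, one_mul, neg_mul, mul_assoc, mul_zero, neg_zero, zero_add]
  abel

/-- `9 z u^7 = 7 s'`. -/
theorem nine (hz : Sym4 z)
    (hN : ∀ f g : Fin 7 → Fin 7 × Fin 7, ((Nmat z).submatrix f g).det = 0)
    (i j k l : Fin 7) :
    (9 : ℕ) • (z i j k l • (G.W4 z 0 1 2 3) ^ 7) = (7 : ℕ) • ((G.W4 z 0 1 2 3) ^ 6 *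
      (G.W2 z j k 0 1 * G.W2 z i l 2 3 - G.W2 z j k 0 2 * G.W2 z i l 1 3
        + G.W2 z j k 0 3 * G.W2 z i l 1 2)) := by
  have he := G.exact_e hz i j k l
  have f1 := G.exact_f1 hz i j k l
  have f2 := G.exact_f2 hz i j k l
  have f3 := G.exact_f3 hz i j k l
  have hb := G.rel_b hz hN i j k l
  rw [he]
  generalize (G.W4 z 0 1 2 3) ^ 6 * (G.W3 z i 1 2 3 * G.W1 z j k l 0) = Y at *
  rw [mul_add, mul_sub] at hb
  rw [mul_add, mul_sub]
  generalize (G.W4 z 0 1 2 3) ^ 5 *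
        (G.W2 z j k 0 1 * (G.W3 z i 1 2 3 * G.W3 z l 0 2 3)) = Q1 at *
  generalize (G.W4 z 0 1 2 3) ^ 5 *
        (G.W2 z j k 0 2 * (G.W3 z i 1 2 3 * G.W3 z l 0 1 3)) = Q2 at *
  generalize (G.W4 z 0 1 2 3) ^ 5 *
        (G.W2 z j k 0 3 * (G.W3 z i 1 2 3 * G.W3 z l 0 1 2)) = Q3 at *
  generalize (G.W4 z 0 1 2 3) ^ 6 * (G.W2 z j k 0 1 * G.W2 z i l 2 3) = S1 at *
  generalize (G.W4 z 0 1 2 3) ^ 6 * (G.W2 z j k 0 2 * G.W2 z i l 1 3) = S2 at *
  generalize (G.W4 z 0 1 2 3) ^ 6 * (G.W2 z j k 0 3 * G.W2 z i l 1 2) = S3 at *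
  have h1 : S1 = -Y - (6 : ℕ) • Q1 := by
    have : S1 = ((6 : ℕ) • Q1 + S1 + Y) - Y - (6 : ℕ) • Q1 := by abel
    rw [this, f1]; abel
  have h2 : S2 = Y - (6 : ℕ) • Q2 := by
    have : S2 = -(-((6 : ℕ) • Q2) - S2 + Y) + Y - (6 : ℕ) • Q2 := by abel
    rw [this, f2]; abel
  have h3 : S3 = -Y - (6 : ℕ) • Q3 := by
    have : S3 = ((6 : ℕ) • Q3 + S3 + Y) - Y - (6 : ℕ) • Q3 := by abel
    rw [this, f3]; abel
  rw [h1, h2, h3, hb]
  abel

theorem key (hz : Sym4 z)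
    (hN : ∀ f g : Fin 7 → Fin 7 × Fin 7, ((Nmat z).submatrix f g).det = 0)
    (i j k l : Fin 7) :
    (11 : ℕ) • (z i j k l • (G.W4 z 0 1 2 3) ^ 7) = 0 := by
  have ha := G.rel_a hz hN i j k l
  have n1 := G.nine hz hN i j k l
  have n2 := G.nine hz hN j i l k
  have hzz : z j i l k = z i j k l := by rw [hz.s12 j i l k, hz.s34 i j l k]
  rw [hzz] at n2
  have ha' : z i j k l • (G.W4 z 0 1 2 3) ^ 7 = (G.W4 z 0 1 2 3) ^ 6 *
      (G.W2 z j k 0 1 * G.W2 z i l 2 3 - G.W2 z j k 0 2 * G.W2 z i l 1 3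
        + G.W2 z j k 0 3 * G.W2 z i l 1 2) + (G.W4 z 0 1 2 3) ^ 6 *
      (G.W2 z i l 0 1 * G.W2 z j k 2 3 - G.W2 z i l 0 2 * G.W2 z j k 1 3
        + G.W2 z i l 0 3 * G.W2 z j k 1 2) := by
    rw [← mul_add, pow_succ' _ 6, ← mul_smul_comm, ha, ← mul_assoc, ← pow_succ']
  generalize z i j k l • (G.W4 z 0 1 2 3) ^ 7 = T at *
  generalize (G.W4 z 0 1 2 3) ^ 6 *
      (G.W2 z j k 0 1 * G.W2 z i l 2 3 - G.W2 z j k 0 2 * G.W2 z i l 1 3
        + G.W2 z j k 0 3 * G.W2 z i l 1 2) = S1 at *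
  generalize (G.W4 z 0 1 2 3) ^ 6 *
      (G.W2 z i l 0 1 * G.W2 z j k 2 3 - G.W2 z i l 0 2 * G.W2 z j k 1 3
        + G.W2 z i l 0 3 * G.W2 z j k 1 2) = S2 at *
  have h : (11 : ℕ) • T = (9 : ℕ) • T + (9 : ℕ) • T - (7 : ℕ) • T := by abel
  rw [h]
  nth_rewrite 1 [n1]
  rw [n2, ha']
  abel

end GData

end Pool.Agent.H91
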