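import Pool.Agent.H91.Contract

/-! Nilpotency and the exact identities coming from it. -/

namespace Pool.Agent.H91.GData

variable {R A : Type*} [CommRing R] [Ring A] [Algebra R A] (G : GData R A)
  {z : Fin 7 → Fin 7 → Fin 7 → Fin 7 → R}

/-- Elements of degree at least `n` in the family `s`. -/
def P (s : Fin 4) (n : ℕ) : Submodule R A :=
  Submodule.span R {y | ∃ (b : A) (a : Fin n → Fin 7), y = b * (List.ofFn fun i => G.ξ s (a i)).prod}

theorem P_eight (s : Fin 4) (y : A) (hy : y ∈ G.P s 8) : y = 0 := by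
  have h : G.P s 8 ≤ ⊥ := by
    unfold P
    rw [Submodule.span_le]
    rintro y ⟨b, a, rfl⟩
    rw [G.nil s a, mul_zero]
    exact Submodule.zero_mem _
  exact (Submodule.mem_bot R).1 (h hy)

/-- `c` is a sum of terms `φ * ξ s a`. -/
def Fac (s : Fin 4) (c : A) : Prop := ∃ φ : Fin 7 → A, c = ∑ a, φ a * G.ξ s a

theorem Fac.mem_one {s : Fin 4} {c : A} (h : G.Fac s c) : c ∈ G.P s 1 := by
  obtain ⟨φ, rfl⟩ := h
  refine Submodule.sum_mem _ fun a _ => Submodule.subset_span ⟨φ a, fun _ => a, ?_⟩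
  simp

theorem Fac.step {s : Fin 4} {c : A} (h : G.Fac s c) (hc : ∀ x, c * x = x * c) {n : ℕ} {y : A}
    (hy : y ∈ G.P s n) : c * y ∈ G.P s (n + 1) := by
  unfold P at hy
  induction hy using Submodule.span_induction with
  | mem y hy =>
    obtain ⟨b, a, rfl⟩ := hy
    rw [← mul_assoc, hc, mul_assoc]
    obtain ⟨φ, hφ⟩ := h
    rw [hφ, Finset.sum_mul, Finset.mul_sum]
    refine Submodule.sum_mem _ fun k _ => Submodule.subset_span
      ⟨b * φ k, Fin.cons k a, ?_⟩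
    rw [List.ofFn_succ, List.prod_cons]
    simp [mul_assoc]
  | zero => rw [mul_zero]; exact Submodule.zero_mem _
  | add x y _ _ hx hy => rw [mul_add]; exact Submodule.add_mem _ hx hy
  | smul r x _ hx => rw [mul_smul_comm]; exact Submodule.smul_mem _ _ hx

theorem Fac.pow_step {s : Fin 4} {c : A} (h : G.Fac s c) (hc : ∀ x, c * x = x * c) (k : ℕ) {n : ℕ}
    {y : A} (hy : y ∈ G.P s n) : c ^ k * y ∈ G.P s (n + k) := by
  induction k with
  | zero => simpa using hy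
  | succ k ih =>
    rw [pow_succ', mul_assoc, ← add_assoc]
    exact h.step G hc ih

theorem fac_W1 (i j k : Fin 7) (s : Fin 4) : G.Fac s (G.W1 z i j k s) := by
  refine ⟨fun d => algebraMap R A (z i j k d), ?_⟩
  unfold W1
  exact Finset.sum_congr rfl fun d _ => by rw [Algebra.smul_def]

theorem fac_W2_right (i j : Fin 7) (s t : Fin 4) : G.Fac t (G.W2 z i j s t) := by
  refine ⟨fun d => ∑ c, z i j c d • G.ξ s c, ?_⟩
  unfold W2
  rw [Finset.sum_comm]
  refine Finset.sum_congr rfl fun d _ => ?_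
  rw [Finset.sum_mul]
  exact Finset.sum_congr rfl fun c _ => by rw [smul_mul_assoc]

theorem fac_W3_3 (i : Fin 7) (s t r : Fin 4) : G.Fac r (G.W3 z i s t r) := by
  refine ⟨fun d => ∑ b, ∑ c, z i b c d • (G.ξ s b * G.ξ t c), ?_⟩
  unfold W3
  have : ∀ b, ∑ c, ∑ d, z i b c d • (G.ξ s b * (G.ξ t c * G.ξ r d)) =
      ∑ d, ∑ c, z i b c d • (G.ξ s b * (G.ξ t c * G.ξ r d)) := fun b => Finset.sum_comm
  simp only [this]
  rw [Finset.sum_comm]
  refine Finset.sum_congr rfl fun d _ => ?_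
  simp only [Finset.sum_mul, smul_mul_assoc, mul_assoc]

theorem fac_W4_4 (s t r q : Fin 4) : G.Fac q (G.W4 z s t r q) := by
  refine ⟨fun d => ∑ a, ∑ b, ∑ c, z a b c d • (G.ξ s a * (G.ξ t b * G.ξ r c)), ?_⟩
  unfold W4
  have h1 : ∀ a b, ∑ c, ∑ d, z a b c d • (G.ξ s a * (G.ξ t b * (G.ξ r c * G.ξ q d))) =
      ∑ d, ∑ c, z a b c d • (G.ξ s a * (G.ξ t b * (G.ξ r c * G.ξ q d))) :=
    fun a b => Finset.sum_comm
  simp only [h1]
  have h2 : ∀ a, ∑ b, ∑ d, ∑ c, z a b c d • (G.ξ s a * (G.ξ t b * (G.ξ r c * G.ξ q d))) =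
      ∑ d, ∑ b, ∑ c, z a b c d • (G.ξ s a * (G.ξ t b * (G.ξ r c * G.ξ q d))) :=
    fun a => Finset.sum_comm
  simp only [h2]
  rw [Finset.sum_comm]
  refine Finset.sum_congr rfl fun d _ => ?_
  simp only [Finset.sum_mul, smul_mul_assoc, mul_assoc]

theorem Fac.neg {s : Fin 4} {c : A} (h : G.Fac s c) : G.Fac s (-c) := by
  obtain ⟨φ, rfl⟩ := h
  exact ⟨fun a => - φ a, by simp⟩

theorem fac_u (hz : Sym4 z) (s : Fin 4) : G.Fac s (G.W4 z 0 1 2 3) := by
  fin_cases s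
  · change G.Fac 0 _
    rw [G.W4_swap12 hz, G.W4_swap23 hz, G.W4_swap34 hz]
    exact (((G.fac_W4_4 1 2 3 0).neg).neg).neg
  · change G.Fac 1 _
    rw [G.W4_swap23 hz, G.W4_swap34 hz]
    exact ((G.fac_W4_4 0 2 3 1).neg).neg
  · change G.Fac 2 _
    rw [G.W4_swap34 hz]
    exact (G.fac_W4_4 0 1 3 2).neg
  · exact G.fac_W4_4 0 1 2 3

theorem fac_h (hz : Sym4 z) (i : Fin 7) (s : Fin 4) (hs : s ≠ 0) :
    G.Fac s (G.W3 z i 1 2 3) := by
  fin_cases s
  · exact absurd rfl hs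
  · change G.Fac 1 _
    rw [G.W3_swap12 hz, G.W3_swap23 hz]
    exact ((G.fac_W3_3 i 2 3 1).neg).neg
  · change G.Fac 2 _
    rw [G.W3_swap23 hz]
    exact (G.fac_W3_3 i 1 3 2).neg
  · exact G.fac_W3_3 i 1 2 3

/-- Derivative of a power of a central element. -/
theorem D_pow_mul (s : Fin 4) (i : Fin 7) (u v : A) (hu : ∀ x, u * x = x * u)
    (h : ∀ x, G.D s i (u * x) = v * x + u * G.D s i x) (k : ℕ) (x : A) :
    G.D s i (u ^ (k + 1) * x) = (k + 1 : ℕ) • (u ^ k * (v * x)) + u ^ (k + 1) * G.D s i x := by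
  induction k generalizing x with
  | zero => simp [h]
  | succ k ih =>
    rw [pow_succ' u (k + 1), mul_assoc, h, ih]
    have h1 : v * (u ^ (k + 1) * x) = u ^ (k + 1) * (v * x) := by
      rw [← mul_assoc, ← mul_assoc]
      congr 1
      have : Commute u v := hu v
      exact ((this.pow_left (k + 1)).eq).symm
    rw [h1, mul_add, mul_smul_comm, ← mul_assoc u, ← pow_succ', ← mul_assoc u (u ^ (k + 1))]
    rw [← add_assoc]
    congr 1
    rw [succ_nsmul' _ (k + 1)]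

end Pool.Agent.H91.GData
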