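import Pool.Agent.H91.Pow

/-! The symmetrised monomials, and their rank six decomposition. -/

namespace Pool.Agent.H91

open Matrix Equiv

/-- The twenty-four permutations of four letters. -/
def l24 : List (Fin 4 → Fin 4) :=
  [![0,1,2,3], ![1,0,2,3], ![0,1,3,2], ![1,0,3,2],
   ![0,2,1,3], ![1,2,0,3], ![0,3,1,2], ![1,3,0,2],
   ![0,2,3,1], ![1,2,3,0], ![0,3,2,1], ![1,3,2,0],
   ![2,0,1,3], ![2,1,0,3], ![3,0,1,2], ![3,1,0,2],
   ![2,0,3,1], ![2,1,3,0], ![3,0,2,1], ![3,1,2,0],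
   ![2,3,0,1], ![2,3,1,0], ![3,2,0,1], ![3,2,1,0]]

set_option maxRecDepth 100000 in
theorem univ_perm4 : (Finset.univ : Finset (Perm (Fin 4))).val.map
    (fun π => (π : Fin 4 → Fin 4)) = (l24 : Multiset (Fin 4 → Fin 4)) := by
  decide

theorem sum_perm4 {M : Type*} [AddCommMonoid M] (F : (Fin 4 → Fin 4) → M) :
    ∑ π : Perm (Fin 4), F π = (l24.map F).sum := by
  have h : ∑ π : Perm (Fin 4), F π = (((Finset.univ : Finset (Perm (Fin 4))).val.map
      (fun π => (π : Fin 4 → Fin 4))).map F).sum := by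
    rw [Multiset.map_map]
    rfl
  rw [h, univ_perm4, Multiset.map_coe, Multiset.sum_coe]

/-! ### the abstract computation in a commutative ring -/

section abs

variable {K : Type*} [CommRing K]

/-- The symmetrised quadrics. -/
def aq (w : Fin 4 → Fin 4 → Fin 7 → Fin 7 → K) (s t : Fin 4) (a b : Fin 7) : K :=
  w s t a b + w s t b a

/-- The symmetrised monomials. -/
def apsi (w : Fin 4 → Fin 4 → Fin 7 → Fin 7 → K) (v : Fin 4 → Fin 7) : K :=
  ∑ π : Perm (Fin 4), w 0 1 (v (π 0)) (v (π 1)) * w 2 3 (v (π 2)) (v (π 3))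

theorem apsi_comp (w : Fin 4 → Fin 4 → Fin 7 → Fin 7 → K) (v : Fin 4 → Fin 7)
    (σ : Perm (Fin 4)) : apsi w (v ∘ σ) = apsi w v := by
  unfold apsi
  exact Fintype.sum_equiv (Equiv.mulLeft σ) _ _ (fun π => rfl)

variable (w : Fin 4 → Fin 4 → Fin 7 → Fin 7 → K)
  (hs : ∀ s t a b, w s t a b = - w t s b a)
  (he : ∀ s t u v a b c d, w s t a c * w u v b d = -(w s u a b * w t v c d))

include hs he

theorem am03 (a b c d : Fin 7) : w 0 1 a c * w 2 3 d b = w 0 3 a b * w 1 2 c d := by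
  rw [hs 2 3 d b, mul_neg, he 0 1 3 2 a b c d, neg_neg]

theorem am12 (a b c d : Fin 7) : w 0 1 c a * w 2 3 b d = w 1 2 a b * w 0 3 c d := by
  rw [hs 0 1 c a, neg_mul, he 1 0 2 3 a b c d, neg_neg]

theorem am13 (a b c d : Fin 7) : w 0 1 c a * w 2 3 d b = -(w 1 3 a b * w 0 2 c d) := by
  rw [hs 0 1 c a, hs 2 3 d b, neg_mul_neg, he 1 0 3 2 a b c d]

theorem apsi_eq' (a b c d : Fin 7) : apsi w ![a, b, c, d] =
      aq w 0 1 a b * aq w 2 3 c d - aq w 0 2 a b * aq w 1 3 c d + aq w 0 3 a b * aq w 1 2 c d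
      + aq w 1 2 a b * aq w 0 3 c d - aq w 1 3 a b * aq w 0 2 c d
      + aq w 2 3 a b * aq w 0 1 c d := by
  have hL : apsi w ![a, b, c, d] = (l24.map fun p =>
      w 0 1 ((![a, b, c, d] : Fin 4 → Fin 7) (p 0)) ((![a, b, c, d] : Fin 4 → Fin 7) (p 1)) *
      w 2 3 ((![a, b, c, d] : Fin 4 → Fin 7) (p 2))
        ((![a, b, c, d] : Fin 4 → Fin 7) (p 3))).sum := by
    unfold apsi
    exact sum_perm4 (fun p =>
      w 0 1 ((![a, b, c, d] : Fin 4 → Fin 7) (p 0)) ((![a, b, c, d] : Fin 4 → Fin 7) (p 1)) *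
      w 2 3 ((![a, b, c, d] : Fin 4 → Fin 7) (p 2)) ((![a, b, c, d] : Fin 4 → Fin 7) (p 3)))
  rw [hL]
  simp only [l24, List.map_cons, List.map_nil, List.sum_cons, List.sum_nil]
  have e1 : ∀ x0 x1 x2 x3 : Fin 4, (![x0, x1, x2, x3] : Fin 4 → Fin 4) 0 = x0 := fun _ _ _ _ => rfl
  have e2 : ∀ x0 x1 x2 x3 : Fin 4, (![x0, x1, x2, x3] : Fin 4 → Fin 4) 1 = x1 := fun _ _ _ _ => rfl
  have e3 : ∀ x0 x1 x2 x3 : Fin 4, (![x0, x1, x2, x3] : Fin 4 → Fin 4) 2 = x2 := fun _ _ _ _ => rfl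
  have e4 : ∀ x0 x1 x2 x3 : Fin 4, (![x0, x1, x2, x3] : Fin 4 → Fin 4) 3 = x3 := fun _ _ _ _ => rfl
  have f1 : (![a, b, c, d] : Fin 4 → Fin 7) 0 = a := rfl
  have f2 : (![a, b, c, d] : Fin 4 → Fin 7) 1 = b := rfl
  have f3 : (![a, b, c, d] : Fin 4 → Fin 7) 2 = c := rfl
  have f4 : (![a, b, c, d] : Fin 4 → Fin 7) 3 = d := rfl
  simp only [e1, e2, e3, e4, f1, f2, f3, f4]
  unfold aq
  rw [he 0 1 2 3 a b c d, he 0 1 2 3 b a c d, he 0 1 2 3 a b d c, he 0 1 2 3 b a d c,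
    am03 w hs he a b c d, am03 w hs he b a c d, am03 w hs he a b d c, am03 w hs he b a d c,
    am12 w hs he a b c d, am12 w hs he b a c d, am12 w hs he a b d c, am12 w hs he b a d c,
    am13 w hs he a b c d, am13 w hs he b a c d, am13 w hs he a b d c, am13 w hs he b a d c]
  ring

theorem apsi_eq (a b c d : Fin 7) : apsi w ![a, b, c, d] =
    ∑ T : Fin 6, (![1, -1, 1, 1, -1, 1] : Fin 6 → K) T *
      (aq w (pS T) (pT T) a b * aq w (cS T) (cT T) c d) := by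
  have h : ∀ F : Fin 6 → K, ∑ T, F T = F 0 + F 1 + F 2 + F 3 + F 4 + F 5 := by
    intro F
    simp only [Fin.sum_univ_succ, Fin.sum_univ_zero]
    change F 0 + (F 1 + (F 2 + (F 3 + (F 4 + (F 5 + 0))))) = _
    ring
  rw [apsi_eq' w hs he, h]
  change _ = 1 * (aq w 0 1 a b * aq w 2 3 c d) + (-1) * (aq w 0 2 a b * aq w 1 3 c d) +
      1 * (aq w 0 3 a b * aq w 1 2 c d) + 1 * (aq w 1 2 a b * aq w 0 3 c d) +
      (-1) * (aq w 1 3 a b * aq w 0 2 c d) + 1 * (aq w 2 3 a b * aq w 0 1 c d)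
  ring

theorem det_apsi_zero (f g : Fin 7 → Fin 7 × Fin 7) :
    (Matrix.of fun i j : Fin 7 => apsi w ![(f i).1, (f i).2, (g j).1, (g j).2]).det = 0 := by
  let U : Matrix (Fin 7) (Fin 7) K := Matrix.of fun i j =>
    Fin.cases 0 (fun T : Fin 6 => (![1, -1, 1, 1, -1, 1] : Fin 6 → K) T *
      aq w (pS T) (pT T) (f i).1 (f i).2) j
  let V : Matrix (Fin 7) (Fin 7) K := Matrix.of fun j i =>
    Fin.cases 0 (fun T : Fin 6 => aq w (cS T) (cT T) (g i).1 (g i).2) j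
  have h : (Matrix.of fun i j : Fin 7 => apsi w ![(f i).1, (f i).2, (g j).1, (g j).2]) = U * V := by
    refine Matrix.ext fun i j => ?_
    have h2 : (U * V) i j = (0 : K) * 0 + ∑ T : Fin 6, U i T.succ * V T.succ j := by
      rw [Matrix.mul_apply, Fin.sum_univ_succ]
      rfl
    rw [Matrix.of_apply, apsi_eq w hs he, h2, mul_zero, zero_add]
    refine Finset.sum_congr rfl fun T _ => ?_
    change _ = ((![1, -1, 1, 1, -1, 1] : Fin 6 → K) T *
      aq w (pS T) (pT T) (f i).1 (f i).2) * aq w (cS T) (cT T) (g j).1 (g j).2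
    ring
  rw [h, Matrix.det_mul, Matrix.det_eq_zero_of_column_eq_zero (A := U) 0 (fun i => rfl), zero_mul]

end abs

namespace GData

variable {R A : Type*} [CommRing R] [Ring A] [Algebra R A] (G : GData R A)

theorem w_swap (s t : Fin 4) (a b : Fin 7) : G.w s t (a, b) = - G.w t s (b, a) := by
  apply Subtype.ext
  exact G.anti s t a b

theorem w_exch (s t u v : Fin 4) (a b c d : Fin 7) :
    G.w s t (a, c) * G.w u v (b, d) = -(G.w s u (a, b) * G.w t v (c, d)) := by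
  apply Subtype.ext
  change (G.ξ s a * G.ξ t c) * (G.ξ u b * G.ξ v d) = -((G.ξ s a * G.ξ u b) * (G.ξ t c * G.ξ v d))
  rw [mul_assoc, ← mul_assoc (G.ξ t c), G.anti t u c b, neg_mul, mul_neg]
  simp only [mul_assoc]

/-- The symmetrised monomials. -/
def psi (w : Fin 4 → Fin 7) : Subalgebra.center R A := ∑ π : Perm (Fin 4), G.mc (w ∘ π)

theorem psi_apsi (v : Fin 4 → Fin 7) :
    G.psi v = apsi (fun s t a b => G.w s t (a, b)) v := rfl

theorem psi_comp (w : Fin 4 → Fin 7) (σ : Perm (Fin 4)) : G.psi (w ∘ σ) = G.psi w := by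
  rw [psi_apsi, psi_apsi, apsi_comp]

theorem det_psi_zero (f g : Fin 7 → Fin 7 × Fin 7) :
    (Matrix.of fun i j : Fin 7 => G.psi ![(f i).1, (f i).2, (g j).1, (g j).2]).det = 0 :=
  det_apsi_zero (fun s t a b => G.w s t (a, b)) (fun s t a b => G.w_swap s t a b)
    (fun s t u v a b c d => G.w_exch s t u v a b c d) f g

end GData

end Pool.Agent.H91
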