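import Pool.Agent.H91.Main

/-! The seventh power of the central element, expanded. -/

namespace Pool.Agent.H91

/-! ### index manipulations -/

/-- Functions on `Fin 4` as quadruples. -/
def quadEquiv : (Fin 4 → Fin 7) ≃ Fin 7 × Fin 7 × Fin 7 × Fin 7 where
  toFun w := (w 0, w 1, w 2, w 3)
  invFun q := ![q.1, q.2.1, q.2.2.1, q.2.2.2]
  left_inv w := by
    ext s
    fin_cases s <;> rfl
  right_inv q := rfl

theorem sum_quad {M : Type*} [AddCommMonoid M] (F : Fin 7 → Fin 7 → Fin 7 → Fin 7 → M) :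
    ∑ w : Fin 4 → Fin 7, F (w 0) (w 1) (w 2) (w 3) = ∑ a, ∑ b, ∑ c, ∑ d, F a b c d := by
  rw [Fintype.sum_equiv quadEquiv (fun w => F (w 0) (w 1) (w 2) (w 3))
    (fun q => F q.1 q.2.1 q.2.2.1 q.2.2.2) (fun _ => rfl)]
  rw [Fintype.sum_prod_type]
  refine Finset.sum_congr rfl fun a _ => ?_
  rw [Fintype.sum_prod_type]
  refine Finset.sum_congr rfl fun b _ => ?_
  rw [Fintype.sum_prod_type]


theorem gen_sum_pow {R K ι : Type*} [CommRing R] [CommRing K] [Algebra R K] [Fintype ι] (n : ℕ)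
    (c : ι → R) (f : ι → K) :
    (∑ w, c w • f w) ^ n = ∑ v : Fin n → ι, (∏ j, c (v j)) • ∏ j, f (v j) := by
  classical
  rw [Fintype.sum_pow]
  refine Finset.sum_congr rfl fun v _ => ?_
  rw [Finset.prod_smul]

theorem gen_lin_sum {R A ι : Type*} [CommRing R] [Ring A] [Algebra R A] [Fintype ι]
    (T : A →ₗ[R] R) (c : ι → R) (f : ι → Subalgebra.center R A) (e : ι → R)
    (h : ∀ v, T (f v : A) = e v) :
    T ((∑ v, c v • f v : Subalgebra.center R A) : A) = ∑ v, e v * c v := by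
  rw [AddSubmonoidClass.coe_finsetSum, map_sum]
  refine Finset.sum_congr rfl fun v _ => ?_
  rw [SetLike.val_smul, LinearMap.map_smul, h, smul_eq_mul, mul_comm]

namespace GData

variable {R A : Type*} [CommRing R] [Ring A] [Algebra R A] (G : GData R A)

/-- The monomial attached to a quadruple, as an element of the centre. -/
def mc (w : Fin 4 → Fin 7) : Subalgebra.center R A :=
  G.w 0 1 (w 0, w 1) * G.w 2 3 (w 2, w 3)

theorem coe_mc (w : Fin 4 → Fin 7) : (G.mc w : A) =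
    G.ξ 0 (w 0) * (G.ξ 1 (w 1) * (G.ξ 2 (w 2) * G.ξ 3 (w 3))) := by
  unfold mc GData.w
  rw [MulMemClass.coe_mul]
  simp only [mul_assoc]

/-- The central element `u`, as a sum over quadruples in the centre. -/
def us (z : Fin 7 → Fin 7 → Fin 7 → Fin 7 → R) : Subalgebra.center R A :=
  ∑ w : Fin 4 → Fin 7, z (w 0) (w 1) (w 2) (w 3) • G.mc w

theorem coe_us (z : Fin 7 → Fin 7 → Fin 7 → Fin 7 → R) :
    (G.us z : A) = G.W4 z 0 1 2 3 := by
  unfold us GData.W4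
  rw [← sum_quad (fun a b c d => z a b c d • (G.ξ 0 a * (G.ξ 1 b * (G.ξ 2 c * G.ξ 3 d))))]
  rw [AddSubmonoidClass.coe_finsetSum]
  refine Finset.sum_congr rfl fun w _ => ?_
  rw [SetLike.val_smul, coe_mc]

theorem us_pow (z : Fin 7 → Fin 7 → Fin 7 → Fin 7 → R) :
    (G.us z) ^ 7 = ∑ v : Fin 7 → Fin 4 → Fin 7,
      (∏ j, z (v j 0) (v j 1) (v j 2) (v j 3)) • ∏ j, G.mc (v j) := by
  have h := gen_sum_pow (R := R) (K := Subalgebra.center R A) 7
    (fun w : Fin 4 → Fin 7 => z (w 0) (w 1) (w 2) (w 3)) G.mc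
  exact h

theorem lin_pow (T : A →ₗ[R] R) (z : Fin 7 → Fin 7 → Fin 7 → Fin 7 → R)
    (e : (Fin 7 → Fin 4 → Fin 7) → R)
    (h : ∀ v, T ((∏ j, G.mc (v j) : Subalgebra.center R A) : A) = e v) :
    T ((G.W4 z 0 1 2 3) ^ 7) =
      ∑ v : Fin 7 → Fin 4 → Fin 7, e v * ∏ j, z (v j 0) (v j 1) (v j 2) (v j 3) := by
  rw [← coe_us, ← SubmonoidClass.coe_pow, us_pow]
  exact gen_lin_sum T _ _ _ h

theorem lin_key (T : A →ₗ[R] R) (z : Fin 7 → Fin 7 → Fin 7 → Fin 7 → R) (hz : Sym4 z)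
    (hN : ∀ f g : Fin 7 → Fin 7 × Fin 7, ((Nmat z).submatrix f g).det = 0)
    (e : (Fin 7 → Fin 4 → Fin 7) → R)
    (h : ∀ v, T ((∏ j, G.mc (v j) : Subalgebra.center R A) : A) = e v) (i j k l : Fin 7) :
    (11 : R) * (z i j k l *
      ∑ v : Fin 7 → Fin 4 → Fin 7, e v * ∏ j, z (v j 0) (v j 1) (v j 2) (v j 3)) = 0 := by
  have h2 := congrArg T (G.key hz hN i j k l)
  rw [map_nsmul, LinearMap.map_smul, G.lin_pow T z e h, map_zero, nsmul_eq_mul,
    smul_eq_mul] at h2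
  exact_mod_cast h2

end GData

end Pool.Agent.H91
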