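import Pool.Agent.H91.CatDefs

/-! Exponent vectors of tuples. -/

namespace Pool.Agent.H91.Cat

open MvPolynomial Equiv

/-- The exponent vector of a tuple. -/
def tpn {n d : ℕ} (w : Fin d → Fin n) : Expo n d :=
  ⟨fun a => ∑ s, if w s = a then 1 else 0, by
    rw [Finset.sum_comm]
    have h : ∀ s, ∑ a, (if w s = a then 1 else 0 : ℕ) = 1 := by
      intro s
      rw [Finset.sum_ite_eq]
      simp
    simp [h]⟩

theorem tpn_apply {n d : ℕ} (w : Fin d → Fin n) (a : Fin n) :
    (tpn w).1 a = ∑ s, if w s = a then 1 else 0 := rfl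

theorem tpn_cons {n d : ℕ} (x : Fin n) (w : Fin d → Fin n) (a : Fin n) :
    (tpn (Fin.cons x w : Fin (d + 1) → Fin n)).1 a = (if x = a then 1 else 0) + (tpn w).1 a := by
  rw [tpn_apply, Fin.sum_univ_succ]
  rfl

theorem tpn_surjective {n d : ℕ} : Function.Surjective (tpn : (Fin d → Fin n) → Expo n d) := by
  induction d with
  | zero =>
    intro γ
    refine ⟨Fin.elim0, Subtype.ext (funext fun a => ?_)⟩
    have h := γ.2
    rw [Finset.sum_eq_zero_iff] at h
    rw [h a (Finset.mem_univ _)]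
    rfl
  | succ d ih =>
    intro γ
    obtain ⟨x, hx⟩ : ∃ x, 0 < γ.1 x := by
      by_contra h
      push Not at h
      have h2 : ∑ a, γ.1 a = 0 := Finset.sum_eq_zero fun a _ => Nat.le_zero.1 (h a)
      rw [γ.2] at h2
      exact Nat.succ_ne_zero _ h2
    have h3 : ∑ a, (γ.1 a - if x = a then 1 else 0) = d := by
      have h4 : ∑ a, ((γ.1 a - if x = a then 1 else 0) + if x = a then 1 else 0) = d + 1 := by
        refine (Finset.sum_congr rfl fun a _ => ?_).trans γ.2
        split_ifs with h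
        · subst h
          omega
        · omega
      rw [Finset.sum_add_distrib, Finset.sum_ite_eq] at h4
      simp only [Finset.mem_univ, if_true] at h4
      omega
    obtain ⟨w, hw⟩ := ih ⟨fun a => γ.1 a - if x = a then 1 else 0, h3⟩
    refine ⟨Fin.cons x w, Subtype.ext (funext fun a => ?_)⟩
    rw [tpn_cons, hw]
    change (if x = a then 1 else 0) + (γ.1 a - if x = a then 1 else 0) = γ.1 a
    split_ifs with h
    · subst h
      omega
    · omega

theorem exists_perm_of_tpn_eq {n d : ℕ} {w w' : Fin d → Fin n} (h : tpn w = tpn w') :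
    ∃ σ : Perm (Fin d), w' = w ∘ σ := by
  have hc : ∀ a, Fintype.card {s // w s = a} = Fintype.card {s // w' s = a} := by
    intro a
    have h1 := congrFun (congrArg Subtype.val h) a
    rw [tpn_apply, tpn_apply, Finset.sum_boole, Finset.sum_boole] at h1
    rw [Fintype.card_subtype, Fintype.card_subtype]
    exact_mod_cast h1
  let e : ∀ a, {s // w' s = a} ≃ {s // w s = a} := fun a => Fintype.equivOfCardEq (hc a).symm
  let σ : Perm (Fin d) := ((Equiv.sigmaFiberEquiv w').symm.trans (Equiv.sigmaCongrRight e)).trans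
    (Equiv.sigmaFiberEquiv w)
  refine ⟨σ, funext fun s => ?_⟩
  have h2 : σ s = (e (w' s) ⟨s, rfl⟩).1 := rfl
  rw [Function.comp_apply, h2]
  exact ((e (w' s) ⟨s, rfl⟩).2).symm

theorem tpn_comp {n d : ℕ} (w : Fin d → Fin n) (σ : Perm (Fin d)) : tpn (w ∘ σ) = tpn w := by
  refine Subtype.ext (funext fun a => ?_)
  rw [tpn_apply, tpn_apply]
  exact Equiv.sum_comp σ (fun s => if w s = a then 1 else 0)

/-- The exponent vector of a pair. -/
def pr {n : ℕ} (m : ℕ) (hm : m = 2) (p : Fin n × Fin n) : Expo n m :=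
  ⟨(tpn ![p.1, p.2]).1, by rw [hm]; exact (tpn ![p.1, p.2]).2⟩

theorem pr_surjective {n : ℕ} (m : ℕ) (hm : m = 2) (γ : Expo n m) : ∃ p, γ = pr m hm p := by
  subst hm
  obtain ⟨w, hw⟩ := tpn_surjective γ
  refine ⟨(w 0, w 1), ?_⟩
  rw [← hw]
  have h : ![w 0, w 1] = w := by
    funext s
    fin_cases s <;> rfl
  refine Subtype.ext ?_
  change (tpn w).1 = (tpn ![w 0, w 1]).1
  rw [h]

theorem tpn_four {n : ℕ} (h : 2 ≤ 4) (a b c d : Fin n) :
    tpn ![a, b, c, d] = Expo.add h (pr 2 rfl (a, b)) (pr (4 - 2) rfl (c, d)) := by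
  refine Subtype.ext (funext fun x => ?_)
  change (∑ s : Fin 4, if ![a, b, c, d] s = x then 1 else 0) =
    (∑ s : Fin 2, if ![a, b] s = x then 1 else 0) + ∑ s : Fin 2, if ![c, d] s = x then 1 else 0
  rw [Fin.sum_univ_four, Fin.sum_univ_two, Fin.sum_univ_two, add_assoc, add_assoc, add_assoc]
  rfl

end Pool.Agent.H91.Cat
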